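import Mathlib
import Pool.Agent.Lib.MP_0a1b52_lc_RP.Defs

/-!
# Refutations with few lemmas: definitions
-/

set_option autoImplicit false

namespace Pool.Agent.RK

open Pool.Agent.FP

/-- `Der D x X S g`: there is a tree which shows that the gate `g` has the value `0` on the input
`x`: from an OR gate it goes to both wires, from an AND gate to one of them, and it ends at literals
with the value `0` and at gates of the set `S`; the tree does not read the variables in `X` (none of
its literals has its variable in `X`). -/
inductive Der {V : Type} {s : ℕ} (D : Circuit V s) (x : V → Bool) (X : Finset V)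
    (S : Fin s → Prop) : Fin s → Prop
  | lit (g : Fin s) (v : V) (b : Bool) : D.gate g = .lit v b → x v ≠ b → v ∉ X → Der D x X S g
  | known (g : Fin s) : S g → Der D x X S g
  | left (g i j : Fin s) : D.gate g = .and i j → Der D x X S i → Der D x X S g
  | right (g i j : Fin s) : D.gate g = .and i j → Der D x X S j → Der D x X S g
  | both (g i j : Fin s) : D.gate g = .or i j → Der D x X S i → Der D x X S j → Der D x X S g

/-- The input `x` has a refutation with `r` lemmas and the sets `X 0, ..., X (K - 1)`: a list of `r`
gates (the lemma `i` says that the gate `g i` has the value `0` on `x`), one of which is the output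
gate; each lemma is shown by a tree which ends at literals with the value `0` and at earlier lemmas
(each of them may be used any number of times) and which, for some `k`, reads no variable of
`X k`. -/
def Lemmas {V : Type} {s K : ℕ} (D : Circuit V s) (x : V → Bool) (X : Fin K → Finset V) (r : ℕ) :
    Prop :=
  ∃ (k : Fin r → Fin K) (g : Fin r → Fin s),
    (∀ i, Der D x (X (k i)) (fun h => ∃ j, j < i ∧ g j = h) (g i)) ∧ ∃ i, g i = D.out

/-- `A` is closed under stars: `u` belongs to `A` if for each class `k` the set `A` contains an
assignment which agrees with `u` outside `X k` -/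
def StarK {V : Type} {K : ℕ} (X : Fin K → Finset V) (A : (V → Bool) → Prop) : Prop :=
  ∀ (u : V → Bool) (v : Fin K → V → Bool), (∀ k, ∀ e, e ∉ X k → v k e = u e) →
    (∀ k, A (v k)) → A u

/-- the positions of a gadget: the two ends of `K` variable edges and `z` further vertices -/
abbrev J (K z : ℕ) : Type := (Fin K × Bool) ⊕ Fin z

/-! ## Gadget graphs -/

/-- the padding: the vertices with the `√n + 1 - g` largest numbers (`g = z + 2 K`) -/
def Pad {n : ℕ} (K z : ℕ) (v : Fin n) : Prop := n - (Nat.sqrt n + 1 - (z + 2 * K)) ≤ (v : ℕ)

/-- the edge between the positions `j, j'` of the gadget `i` is switched on by `Y` -/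
def Ok {I : Type} {K z : ℕ} (Y : Fin K → I → Bool) (i : I) (j j' : J K z) : Prop :=
  ∀ (t : Fin K) (b : Bool), j = .inl (t, b) → j' = .inl (t, !b) → Y t i = true

/-- adjacency in the gadget graph -/
def GAdj {I : Type} {n K z : ℕ} (w : I → J K z → Fin n) (Y : Fin K → I → Bool) (u v : Fin n) :
    Prop :=
  Pad K z u ∨ Pad K z v ∨ ∃ i j j', j ≠ j' ∧ u = w i j ∧ v = w i j' ∧ Ok Y i j j'

open Classical in
/-- the gadget graph as an assignment -/
noncomputable def GG {I : Type} {n K z : ℕ} (w : I → J K z → Fin n) (Y : Fin K → I → Bool) :
    EdgeVar n → Bool :=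
  fun e => decide (GAdj w Y e.1.1 e.1.2)

/-! ## Patterns -/

/-- `K` patterns of length `L` with odd inner product -/
abbrev Pat (K L : ℕ) : Type := {p : Fin K → Fin L → Bool //
  (∑ s, if ∀ k, p k s = true then 1 else 0) % 2 = 1}

/-- all groups have even inner product -/
def Zr {ι : Type} {K L : ℕ} (x : Fin K → ι → Fin L → Bool) : Prop :=
  ∀ τ, (∑ s, if ∀ k, x k τ s = true then 1 else 0) % 2 = 0

/-- the gadgets switched on by `x` -/
def Xs {ι : Type} {K L : ℕ} (x : Fin K → ι → Fin L → Bool) : Fin K → ι × Pat K L → Bool :=
  fun k i => decide (i.2.1 k = x k i.1)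

end Pool.Agent.RK
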