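import Mathlib
import Pool.Agent.Lib.MP_0a1b52_lc_RK.Defs

/-!
# Refutations with few lemmas, module Cov: few star-closed sets cover the refuted inputs
-/

set_option autoImplicit false

namespace Pool.Agent.RK

open Finset Pool.Agent.FP

theorem Der.mono {V : Type} {s : ℕ} {D : Circuit V s} {x : V → Bool} {X : Finset V}
    {S S' : Fin s → Prop} (h : ∀ g, S g → S' g) {g : Fin s} (hg : Der D x X S g) :
    Der D x X S' g := by
  induction hg with
  | lit g v b h1 h2 h3 => exact .lit g v b h1 h2 h3
  | known g h1 => exact .known g (h g h1)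
  | left g i j h1 _ ih => exact .left g i j h1 ih
  | right g i j h1 _ ih => exact .right g i j h1 ih
  | both g i j h1 _ _ ih1 ih2 => exact .both g i j h1 ih1 ih2

theorem Der.congr {V : Type} {s : ℕ} {D : Circuit V s} {x y : V → Bool} {X : Finset V}
    {S : Fin s → Prop} (h : ∀ v, v ∉ X → x v = y v) {g : Fin s} (hg : Der D x X S g) :
    Der D y X S g := by
  induction hg with
  | lit g v b h1 h2 h3 => exact .lit g v b h1 (h v h3 ▸ h2) h3
  | known g h1 => exact .known g h1
  | left g i j h1 _ ih => exact .left g i j h1 ih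
  | right g i j h1 _ ih => exact .right g i j h1 ih
  | both g i j h1 _ _ ih1 ih2 => exact .both g i j h1 ih1 ih2

theorem Der.sound {V : Type} {s : ℕ} {D : Circuit V s} {x : V → Bool} {X : Finset V}
    {S : Fin s → Prop} {val : Fin s → Bool} (hval : D.IsEval x val) (hS : ∀ g, S g → val g = false)
    {g : Fin s} (hg : Der D x X S g) : val g = false := by
  induction hg with
  | lit g v b h1 h2 _ =>
    have h := hval g
    rw [h1] at h
    simp only at h
    rw [h]
    simpa using h2
  | known g h1 => exact hS g h1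
  | left g i j h1 _ ih =>
    have h := hval g
    rw [h1] at h
    simp only at h
    rw [h, ih, Bool.false_and]
  | right g i j h1 _ ih =>
    have h := hval g
    rw [h1] at h
    simp only at h
    rw [h, ih, Bool.and_false]
  | both g i j h1 _ _ ih1 ih2 =>
    have h := hval g
    rw [h1] at h
    simp only at h
    rw [h, ih1, ih2, Bool.or_false]

open Classical in
/-- few star-closed sets of rejected inputs cover all inputs which have a refutation with `r`
lemmas -/
theorem cover {V : Type} {s K : ℕ} (hK : 0 < K) (D : Circuit V s) (X : Fin K → Finset V)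
    (r : ℕ) : ∃ (M : ℕ) (T : Fin M → (V → Bool) → Prop), M = (K * s) ^ r ∧
      (∀ θ, StarK X (T θ)) ∧ (∀ θ x, T θ x → ¬ D.Accepts x) ∧
      ∀ x, Lemmas D x X r → ∃ θ, T θ x := by
  let Θ : Type := Fin r → Fin K × Fin s
  let T : Θ → (V → Bool) → Prop := fun P x =>
    (∀ i, Der D x (X (P i).1) (fun h => ∃ j, j < i ∧ (P j).2 = h) (P i).2) ∧ ∃ i, (P i).2 = D.out
  refine ⟨Fintype.card Θ, fun θ => T ((Fintype.equivFin Θ).symm θ), ?_, ?_, ?_, ?_⟩
  · rw [Fintype.card_fun, Fintype.card_prod, Fintype.card_fin, Fintype.card_fin,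
      Fintype.card_fin]
  · intro θ u v huv hv
    exact ⟨fun i => ((hv _).1 i).congr fun e he => huv _ e he, (hv ⟨0, hK⟩).2⟩
  · intro θ x h hacc
    obtain ⟨val, h1, h2⟩ := hacc
    set P := (Fintype.equivFin Θ).symm θ with hP
    have key : ∀ m : ℕ, ∀ i : Fin r, (i : ℕ) = m → val (P i).2 = false := by
      intro m
      induction m using Nat.strong_induction_on with
      | _ m ih =>
        rintro i rfl
        refine (h.1 i).sound h1 fun h' hh => ?_
        obtain ⟨j, hj, rfl⟩ := hh
        exact ih (j : ℕ) hj j rfl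
    obtain ⟨i, hi⟩ := h.2
    have h3 := key _ i rfl
    rw [hi, h2] at h3
    exact absurd h3 (by simp)
  · rintro x ⟨k, g, h1, h2⟩
    refine ⟨Fintype.equivFin Θ fun i => (k i, g i), ?_⟩
    simp only [T, Equiv.symm_apply_apply]
    exact ⟨h1, h2⟩

end Pool.Agent.RK
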