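import Mathlib
import Pool.Agent.Lib.MP_0a1b52_lc_RK.Cov

/-!
# Refutations with few lemmas, module Pieces: refutation trees with few cuts
-/

set_option autoImplicit false

namespace Pool.Agent.RK

open Pool.Agent.FP

/-- a refutation tree for g with r cuts; every piece has a class, a piece of class l does not
read the variables in X l -/
inductive Cuts {V : Type} {s K : ℕ} (D : Circuit V s) (x : V → Bool) (X : Fin K → Finset V) :
    Fin K → Fin s → ℕ → Prop
  | lit (k : Fin K) (g : Fin s) (v : V) (b : Bool) : D.gate g = .lit v b → x v ≠ b → v ∉ X k →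
      Cuts D x X k g 0
  | left (k : Fin K) (g i j : Fin s) (r : ℕ) : D.gate g = .and i j → Cuts D x X k i r →
      Cuts D x X k g r
  | right (k : Fin K) (g i j : Fin s) (r : ℕ) : D.gate g = .and i j → Cuts D x X k j r →
      Cuts D x X k g r
  | both (k : Fin K) (g i j : Fin s) (r r2 : ℕ) : D.gate g = .or i j → Cuts D x X k i r →
      Cuts D x X k j r2 → Cuts D x X k g (r + r2)
  | cut (k l : Fin K) (g : Fin s) (r : ℕ) : Cuts D x X l g r → Cuts D x X k g (r + 1)

/-- lists of lemmas, the last lemma first -/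
private inductive Pieces_Chain {V : Type} {s K : ℕ} (D : Circuit V s) (x : V → Bool)
    (X : Fin K → Finset V) : List (Fin K × Fin s) → Prop
  | nil : Pieces_Chain D x X []
  | cons (k : Fin K) (g : Fin s) (L : List (Fin K × Fin s)) : Pieces_Chain D x X L →
      Der D x (X k) (fun h => ∃ p ∈ L, p.2 = h) g → Pieces_Chain D x X ((k, g) :: L)

private theorem Pieces_append {V : Type} {s K : ℕ} {D : Circuit V s} {x : V → Bool}
    {X : Fin K → Finset V} {L L' : List (Fin K × Fin s)} (h : Pieces_Chain D x X L)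
    (h' : Pieces_Chain D x X L') : Pieces_Chain D x X (L ++ L') := by
  induction h with
  | nil => exact h'
  | cons k g L _ hg ih =>
    exact .cons k g (L ++ L') ih (hg.mono fun h ⟨p, hp, e⟩ => ⟨p, List.mem_append_left _ hp, e⟩)

private theorem Pieces_get {V : Type} {s K : ℕ} {D : Circuit V s} {x : V → Bool}
    {X : Fin K → Finset V} {L : List (Fin K × Fin s)} (h : Pieces_Chain D x X L) :
    ∀ i : Fin L.length, Der D x (X (L.get i).1)
      (fun h => ∃ j : Fin L.length, i < j ∧ (L.get j).2 = h) (L.get i).2 := by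
  induction h with
  | nil => exact fun i => i.elim0
  | cons k g L _ hg ih =>
    intro i
    refine Fin.cases ?_ (fun i' => ?_) i
    · refine hg.mono fun h ⟨p, hp, e⟩ => ?_
      obtain ⟨j, hj⟩ := List.get_of_mem hp
      exact ⟨j.succ, Fin.succ_pos j, by rw [← e, ← hj]; rfl⟩
    · refine (ih i').mono fun h ⟨j, hj, e⟩ => ?_
      exact ⟨j.succ, Fin.succ_lt_succ_iff.2 hj, e⟩

private theorem Pieces_lemmas {V : Type} {s K : ℕ} {D : Circuit V s} {x : V → Bool}
    {X : Fin K → Finset V} {L : List (Fin K × Fin s)} (h : Pieces_Chain D x X L)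
    (ho : ∃ p ∈ L, p.2 = D.out) : Lemmas D x X L.length := by
  refine ⟨fun i => (L.get i.rev).1, fun i => (L.get i.rev).2, fun i => ?_, ?_⟩
  · refine (Pieces_get h i.rev).mono fun h ⟨j, hj, e⟩ => ⟨j.rev, ?_, ?_⟩
    · rw [← Fin.rev_lt_rev, Fin.rev_rev]
      exact hj
    · dsimp only
      rw [Fin.rev_rev]
      exact e
  · obtain ⟨p, hp, e⟩ := ho
    obtain ⟨j, hj⟩ := List.get_of_mem hp
    refine ⟨j.rev, ?_⟩
    dsimp only
    rw [Fin.rev_rev, hj, e]

private theorem Pieces_main {V : Type} {s K : ℕ} {D : Circuit V s} {x : V → Bool}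
    {X : Fin K → Finset V} {k : Fin K} {g : Fin s} {r : ℕ} (h : Cuts D x X k g r) :
    ∃ L : List (Fin K × Fin s), L.length = r ∧ Pieces_Chain D x X L ∧
      Der D x (X k) (fun h => ∃ p ∈ L, p.2 = h) g := by
  induction h with
  | lit k g v b h1 h2 h3 => exact ⟨[], rfl, .nil, .lit g v b h1 h2 h3⟩
  | left k g i j r h1 _ ih =>
    obtain ⟨L, h2, h3, h4⟩ := ih
    exact ⟨L, h2, h3, .left g i j h1 h4⟩
  | right k g i j r h1 _ ih =>
    obtain ⟨L, h2, h3, h4⟩ := ih
    exact ⟨L, h2, h3, .right g i j h1 h4⟩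
  | both k g i j r r2 h1 _ _ ih1 ih2 =>
    obtain ⟨L, h2, h3, h4⟩ := ih1
    obtain ⟨L', h5, h6, h7⟩ := ih2
    refine ⟨L ++ L', by rw [List.length_append, h2, h5], Pieces_append h3 h6,
      .both g i j h1 (h4.mono fun h ⟨p, hp, e⟩ => ⟨p, List.mem_append_left _ hp, e⟩)
        (h7.mono fun h ⟨p, hp, e⟩ => ⟨p, List.mem_append_right _ hp, e⟩)⟩
  | cut k l g r _ ih =>
    obtain ⟨L, h2, h3, h4⟩ := ih
    exact ⟨(l, g) :: L, by rw [List.length_cons, h2], .cons l g L h3 h4,
      .known g ⟨(l, g), List.mem_cons_self, rfl⟩⟩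

theorem Cuts.lemmas {V : Type} {s K : ℕ} {D : Circuit V s} {x : V → Bool} {X : Fin K → Finset V}
    {k : Fin K} {r : ℕ} (h : Cuts D x X k D.out r) : Lemmas D x X (r + 1) := by
  obtain ⟨L, h2, h3, h4⟩ := Pieces_main h
  have h5 := Pieces_lemmas (.cons k D.out L h3 h4) ⟨(k, D.out), List.mem_cons_self, rfl⟩
  rw [List.length_cons, h2] at h5
  exact h5

end Pool.Agent.RK
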