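import Mathlib
import Pool.Agent.Lib.MP_0a1b52_lc_RK.Defs
import Pool.Agent.Lib.MP_0a1b52_lc_RP.Dens

/-!
# Refutations with few lemmas, module Dens: the number of good contents of a group
-/

set_option autoImplicit false

namespace Pool.Agent.RK

open Finset Pool.Agent.FP Pool.Agent.RP

/-- the contents of a group all of whose variable edges belong to the right sets -/
def GoodK {P : Type} {n N K z : ℕ} (hN : N ≤ n) (X : Fin K → Finset (EdgeVar n)) :
    Set (P × J K z → Fin N) :=
  {χ | ∀ p t, Pr (X t) (Fin.castLE hN (χ (p, .inl (t, false))))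
    (Fin.castLE hN (χ (p, .inl (t, true))))}

/-- the pairs which are variables of `X t` -/
private abbrev EE {n N K : ℕ} (hN : N ≤ n) (X : Fin K → Finset (EdgeVar n)) (t : Fin K) : Type :=
  {q : Fin N × Fin N // Pr (X t) (Fin.castLE hN q.1) (Fin.castLE hN q.2)}

/-- a content from pairs and free positions -/
private def cont {P : Type} {n N K z : ℕ} (hN : N ≤ n) (X : Fin K → Finset (EdgeVar n))
    (ψ : P → ((t : Fin K) → EE hN X t) × (Fin z → Fin N)) : P × J K z → Fin N
  | (p, .inl (t, false)) => ((ψ p).1 t).1.1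
  | (p, .inl (t, true)) => ((ψ p).1 t).1.2
  | (p, .inr s) => (ψ p).2 s

private theorem cont_mem {P : Type} {n N K z : ℕ} (hN : N ≤ n) (X : Fin K → Finset (EdgeVar n))
    (ψ : P → ((t : Fin K) → EE hN X t) × (Fin z → Fin N)) :
    cont hN X ψ ∈ GoodK (P := P) (z := z) hN X := fun p t => ((ψ p).1 t).2

private theorem cont_inj {P : Type} {n N K z : ℕ} (hN : N ≤ n) (X : Fin K → Finset (EdgeVar n)) :
    Function.Injective (cont (P := P) (z := z) hN X) := by
  intro ψ ψ' h
  funext p
  refine Prod.ext (funext fun t => Subtype.ext (Prod.ext ?_ ?_)) (funext fun s => ?_)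
  · exact congrFun h (p, .inl (t, false))
  · exact congrFun h (p, .inl (t, true))
  · exact congrFun h (p, .inr s)

open Classical in
theorem good_card {P : Type} [Fintype P] {n N K z : ℕ} (hN : N ≤ n)
    (X : Fin K → Finset (EdgeVar n)) (d : ℝ) (hd0 : 0 ≤ d)
    (hd : ∀ t, d * (N : ℝ) ^ 2 ≤ ((univ.filter fun q : Fin N × Fin N =>
      Pr (X t) (Fin.castLE hN q.1) (Fin.castLE hN q.2)).card : ℝ)) :
    d ^ (K * Fintype.card P) * (N : ℝ) ^ (Fintype.card P * Fintype.card (J K z)) ≤
      (Nat.card (GoodK (P := P) (z := z) hN X) : ℝ) := by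
  have h1 : Nat.card (P → ((t : Fin K) → EE hN X t) × (Fin z → Fin N)) ≤
      Nat.card (GoodK (P := P) (z := z) hN X) :=
    Nat.card_le_card_of_injective (fun ψ => (⟨cont hN X ψ, cont_mem hN X ψ⟩ :
      GoodK (P := P) (z := z) hN X)) fun ψ ψ' h => cont_inj hN X (congrArg Subtype.val h)
  have h2 : Nat.card (P → ((t : Fin K) → EE hN X t) × (Fin z → Fin N)) =
      ((∏ t : Fin K, (univ.filter fun q : Fin N × Fin N =>
        Pr (X t) (Fin.castLE hN q.1) (Fin.castLE hN q.2)).card) * N ^ z) ^ Fintype.card P := by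
    rw [Nat.card_fun, Nat.card_eq_fintype_card (α := P), Nat.card_prod, Nat.card_pi, Nat.card_fun,
      Nat.card_eq_fintype_card (α := Fin z), Nat.card_eq_fintype_card (α := Fin N),
      Fintype.card_fin, Fintype.card_fin]
    congr 3
    funext t
    rw [Nat.card_eq_fintype_card, Fintype.card_subtype]
  have hJ : Fintype.card (J K z) = 2 * K + z := by
    simp only [J, Fintype.card_sum, Fintype.card_prod, Fintype.card_fin, Fintype.card_bool]
    omega
  calc d ^ (K * Fintype.card P) * (N : ℝ) ^ (Fintype.card P * Fintype.card (J K z))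
      = ((∏ _t : Fin K, d * (N : ℝ) ^ 2) * (N : ℝ) ^ z) ^ Fintype.card P := by
        rw [hJ, Finset.prod_const, Finset.card_univ, Fintype.card_fin, pow_mul, mul_comm
          (Fintype.card P), pow_mul, ← mul_pow, mul_pow d, ← pow_mul, mul_assoc, ← pow_add]
    _ ≤ ((∏ t : Fin K, ((univ.filter fun q : Fin N × Fin N =>
        Pr (X t) (Fin.castLE hN q.1) (Fin.castLE hN q.2)).card : ℝ)) * (N : ℝ) ^ z) ^
          Fintype.card P := by
        refine pow_le_pow_left₀ ?_ ?_ _
        · exact mul_nonneg (Finset.prod_nonneg fun t _ => by positivity) (by positivity)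
        · refine mul_le_mul_of_nonneg_right ?_ (by positivity)
          exact Finset.prod_le_prod (fun t _ => by positivity) fun t _ => hd t
    _ ≤ (Nat.card (GoodK (P := P) (z := z) hN X) : ℝ) := by
        rw [h2] at h1
        exact_mod_cast h1

end Pool.Agent.RK
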