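import Mathlib
import Pool.Agent.Lib.MP_0a1b52_lc_RK.Defs
import Pool.Agent.Lib.MP_69a69c_lc_SH.NoCover

/-!
# Refutations with few lemmas: the measure of star-closed sets of zeros
-/

set_option autoImplicit false

namespace Pool.Agent.RK

/-- reindexing of the groups -/
private def Meas_equiv {κ : Type} {K m L : ℕ} (e : κ ≃ Fin m) :
    (Fin K → κ → Fin L → Bool) ≃ (Fin K → Fin m × Fin L → Bool) where
  toFun x j p := x j (e.symm p.1) p.2
  invFun X j τ s := X j (e τ, s)
  left_inv x := by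
    funext j τ s
    simp only [Equiv.symm_apply_apply]
  right_inv X := by
    funext j p
    simp only [Equiv.apply_symm_apply]

private theorem Meas_zero {κ : Type} {K m L : ℕ} (e : κ ≃ Fin m) (x : Fin K → κ → Fin L → Bool) :
    Pool.Agent.SH.ZeroM (Meas_equiv e x) ↔ Zr x := by
  have h : ∀ τ : Fin m, (∑ s, (decide (∀ j, Meas_equiv e x j (τ, s) = true)).toNat) =
      ∑ s, if ∀ k, x k (e.symm τ) s = true then 1 else 0 := by
    intro τ
    refine Finset.sum_congr rfl fun s _ => ?_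
    have h1 : (∀ j, Meas_equiv e x j (τ, s) = true) ↔ ∀ k, x k (e.symm τ) s = true := Iff.rfl
    by_cases h2 : ∀ k, x k (e.symm τ) s = true
    · rw [if_pos h2, decide_eq_true (h1.2 h2)]
      rfl
    · rw [if_neg h2, decide_eq_false (fun h3 => h2 (h1.1 h3))]
      rfl
  constructor
  · intro hz τ
    have h1 := hz (e τ)
    rw [h, Equiv.symm_apply_apply] at h1
    exact h1
  · intro hz τ
    rw [h]
    exact hz _

/-- the measure of star-closed sets of zeros when all groups vary -/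
private theorem Meas_full {κ : Type} [Fintype κ] [DecidableEq κ] (M : ℕ)
    (Z T : Finset (Fin (M + 1) → κ → Fin (2 * 4 ^ M) → Bool))
    (hZ : ∀ x, x ∈ Z ↔ Zr x) (hTZ : T ⊆ Z)
    (hstar : ∀ (x : Fin (M + 1) → κ → Fin (2 * 4 ^ M) → Bool)
      (y : Fin (M + 1) → Fin (M + 1) → κ → Fin (2 * 4 ^ M) → Bool),
      (∀ k j, j ≠ k → y k j = x j) → (∀ k, y k ∈ T) → x ∈ T) :
    T.card * 2 ^ Fintype.card κ ≤ Z.card := by
  classical
  let m : ℕ := Fintype.card κ
  let e : κ ≃ Fin m := Fintype.equivFin κ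
  let Ψ := Meas_equiv (K := M + 1) (L := 2 * 4 ^ M) e
  have hmem : ∀ (U : Finset (Fin (M + 1) → κ → Fin (2 * 4 ^ M) → Bool))
      (X : Fin (M + 1) → Fin m × Fin (2 * 4 ^ M) → Bool),
      X ∈ U.map Ψ.toEmbedding ↔ Ψ.symm X ∈ U := by
    intro U X
    rw [Finset.mem_map_equiv]
  have hz : ∀ X : Fin (M + 1) → Fin m × Fin (2 * 4 ^ M) → Bool,
      Pool.Agent.SH.ZeroM X ↔ Zr (Ψ.symm X) := by
    intro X
    have h := Meas_zero e (Ψ.symm X)
    have h2 : Meas_equiv e (Ψ.symm X) = X := Ψ.apply_symm_apply X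
    rw [h2] at h
    exact h
  have h1 := Pool.Agent.SH.card_star M m {X | X ∈ T.map Ψ.toEmbedding}
    (by
      intro u v h1 h2
      rw [Set.mem_ofPred_eq, hmem]
      refine hstar (Ψ.symm u) (fun k => Ψ.symm (v k)) ?_ ?_
      · intro k j hj
        funext τ s
        show v k j (e τ, s) = u j (e τ, s)
        rw [h1 k j hj]
      · intro k
        have h3 := h2 k
        rw [Set.mem_ofPred_eq, hmem] at h3
        exact h3)
    (by
      intro X hX
      rw [Set.mem_ofPred_eq, hmem] at hX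
      exact (hz X).2 ((hZ _).1 (hTZ hX)))
  have h2 := Pool.Agent.SH.card_ZeroM M m (2 * 4 ^ M)
  have h3 : Nat.card {X | X ∈ T.map Ψ.toEmbedding} = T.card := by
    rw [← Finset.card_map Ψ.toEmbedding]
    exact Nat.subtype_card _ (fun X => Iff.rfl)
  have h4 : Nat.card {X : Fin (M + 1) → Fin m × Fin (2 * 4 ^ M) → Bool //
      Pool.Agent.SH.ZeroM X} = Z.card := by
    rw [← Finset.card_map Ψ.toEmbedding]
    exact Nat.subtype_card _ (fun X => by rw [hmem, hZ, hz])
  rw [h3] at h1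
  rw [h4] at h2
  have h5 : (4 : ℝ) ^ m * (T.card : ℝ) ≤ 2 ^ m * (Z.card : ℝ) := h1.trans h2
  have h6 : 4 ^ m * T.card ≤ 2 ^ m * Z.card := by exact_mod_cast h5
  have h7 : 2 ^ m * (T.card * 2 ^ m) ≤ 2 ^ m * Z.card := by
    have h8 : (4 : ℕ) ^ m = 2 ^ m * 2 ^ m := (mul_pow 2 2 m)
    calc 2 ^ m * (T.card * 2 ^ m) = 4 ^ m * T.card := by
          rw [h8]
          ring
      _ ≤ _ := h6
  exact Nat.le_of_mul_le_mul_left h7 (by positivity)

theorem measure {ι : Type} [Fintype ι] [DecidableEq ι] (M : ℕ) (Γ : Finset ι)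
    (Z T : Finset (Fin (M + 1) → ι → Fin (2 * 4 ^ M) → Bool))
    (hZ : ∀ x, x ∈ Z ↔ Zr x) (hTZ : T ⊆ Z)
    (hstar : ∀ (x : Fin (M + 1) → ι → Fin (2 * 4 ^ M) → Bool)
      (y : Fin (M + 1) → Fin (M + 1) → ι → Fin (2 * 4 ^ M) → Bool),
      (∀ k j, j ≠ k → y k j = x j) → (∀ k, ∀ τ ∉ Γ, y k k τ = x k τ) → (∀ k, y k ∈ T) → x ∈ T) :
    T.card * 2 ^ Γ.card ≤ Z.card := by
  classical
  let cut : (Fin (M + 1) → ι → Fin (2 * 4 ^ M) → Bool) →
      Fin (M + 1) → ι → Fin (2 * 4 ^ M) → Bool := fun x k τ =>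
    if τ ∈ Γ then fun _ => false else x k τ
  have hcut : ∀ x x', cut x = cut x' ↔ ∀ k, ∀ τ ∉ Γ, x k τ = x' k τ := by
    intro x x'
    constructor
    · intro h k τ hτ
      have h1 := congrFun (congrFun h k) τ
      simpa only [cut, if_neg hτ] using h1
    · intro h
      funext k τ
      by_cases hτ : τ ∈ Γ
      · simp only [cut, if_pos hτ]
      · simp only [cut, if_neg hτ]
        exact h k τ hτ
  have hTs : T.card = ∑ c, (T.filter fun p => cut p = c).card :=
    Finset.card_eq_sum_card_fiberwise (fun _ _ => Finset.mem_coe.mpr (Finset.mem_univ _))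
  have hZs : Z.card = ∑ c, (Z.filter fun p => cut p = c).card :=
    Finset.card_eq_sum_card_fiberwise (fun _ _ => Finset.mem_coe.mpr (Finset.mem_univ _))
  rw [hTs, hZs, Finset.sum_mul]
  refine Finset.sum_le_sum fun c _ => ?_
  rcases (T.filter fun p => cut p = c).eq_empty_or_nonempty with h | ⟨x0, hp0⟩
  · rw [h]
    simp
  obtain ⟨hp0T, hp0c⟩ := Finset.mem_filter.1 hp0
  -- gluing
  let glue : (Fin (M + 1) → {τ // τ ∈ Γ} → Fin (2 * 4 ^ M) → Bool) →
      Fin (M + 1) → ι → Fin (2 * 4 ^ M) → Bool :=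
    fun x k τ => if h : τ ∈ Γ then x k ⟨τ, h⟩ else x0 k τ
  have hg1 : ∀ x k (τ : {τ // τ ∈ Γ}), glue x k τ.1 = x k τ := by
    intro x k τ
    simp only [glue, dif_pos τ.2]
  have hg2 : ∀ x k, ∀ τ ∉ Γ, glue x k τ = x0 k τ := by
    intro x k τ hτ
    simp only [glue, dif_neg hτ]
  have hginj : ∀ x x', glue x = glue x' → x = x' := by
    intro x x' h
    funext k τ
    rw [← hg1 x k τ, ← hg1 x' k τ, h]
  have hgcut : ∀ x, cut (glue x) = cut x0 := by
    intro x
    rw [hcut]
    exact hg2 x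
  let Zc : Finset (Fin (M + 1) → {τ // τ ∈ Γ} → Fin (2 * 4 ^ M) → Bool) :=
    Finset.univ.filter fun p => Zr p
  let Tc : Finset (Fin (M + 1) → {τ // τ ∈ Γ} → Fin (2 * 4 ^ M) → Bool) :=
    Finset.univ.filter fun p => glue p ∈ T
  have hZcm : ∀ x, x ∈ Zc ↔ Zr x := by
    intro x
    simp only [Zc, Finset.mem_filter, Finset.mem_univ, true_and]
  have hTcm : ∀ x, x ∈ Tc ↔ glue x ∈ T := by
    intro x
    simp only [Tc, Finset.mem_filter, Finset.mem_univ, true_and]
  have hTZc : Tc ⊆ Zc := by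
    intro x hp
    rw [hZcm]
    rw [hTcm] at hp
    have h1 := (hZ _).1 (hTZ hp)
    intro τ
    have h2 := h1 τ.1
    simp only [hg1] at h2
    exact h2
  have hfull := Meas_full M Zc Tc hZcm hTZc (by
    intro x y h1 h2
    rw [hTcm]
    refine hstar (glue x) (fun k => glue (y k)) ?_ ?_ ?_
    · intro k j hj
      funext τ
      by_cases hτ : τ ∈ Γ
      · simp only [glue, dif_pos hτ, h1 k j hj]
      · simp only [glue, dif_neg hτ]
    · intro k τ hτ
      rw [hg2 _ _ τ hτ, hg2 _ _ τ hτ]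
    · intro k
      exact (hTcm _).1 (h2 k))
  rw [Fintype.card_coe] at hfull
  have hle1 : (T.filter fun p => cut p = c).card ≤ Tc.card := by
    refine Finset.card_le_card_of_injOn (fun p k τ => p k τ.1) ?_ ?_
    · intro x hp
      obtain ⟨hpT, hpc⟩ := Finset.mem_filter.1 (Finset.mem_coe.1 hp)
      rw [Finset.mem_coe, hTcm]
      have heq : cut x = cut x0 := hpc.trans hp0c.symm
      rw [hcut] at heq
      have key : glue (fun k τ => x k τ.1) = x := by
        funext k τ
        by_cases hτ : τ ∈ Γ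
        · simp only [glue, dif_pos hτ]
        · simp only [glue, dif_neg hτ]
          exact (heq k τ hτ).symm
      rw [key]
      exact hpT
    · intro x hp x' hp' h
      obtain ⟨hpT, hpc⟩ := Finset.mem_filter.1 (Finset.mem_coe.1 hp)
      obtain ⟨hpT', hpc'⟩ := Finset.mem_filter.1 (Finset.mem_coe.1 hp')
      have heq : cut x = cut x' := hpc.trans hpc'.symm
      rw [hcut] at heq
      funext k τ
      by_cases hτ : τ ∈ Γ
      · exact congrFun (congrFun h k) ⟨τ, hτ⟩
      · exact heq k τ hτ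
  have hle2 : Zc.card ≤ (Z.filter fun p => cut p = c).card := by
    refine Finset.card_le_card_of_injOn glue ?_ ?_
    · intro x hp
      have hp1 := (hZcm x).1 (Finset.mem_coe.1 hp)
      have h0 := (hZ x0).1 (hTZ hp0T)
      rw [Finset.mem_coe, Finset.mem_filter]
      refine ⟨(hZ _).2 ?_, ?_⟩
      · intro τ
        by_cases hτ : τ ∈ Γ
        · have h1 := hp1 ⟨τ, hτ⟩
          have e1 : ∀ k, glue x k τ = x k ⟨τ, hτ⟩ := fun k => hg1 x k ⟨τ, hτ⟩
          simp only [e1]
          exact h1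
        · have e1 : ∀ k, glue x k τ = x0 k τ := fun k => hg2 x k τ hτ
          simp only [e1]
          exact h0 τ
      · rw [← hp0c]
        exact hgcut x
    · intro x _ x' _ h
      exact hginj _ _ h
  calc (T.filter fun p => cut p = c).card * 2 ^ Γ.card ≤ Tc.card * 2 ^ Γ.card :=
        Nat.mul_le_mul_right _ hle1
    _ ≤ Zc.card := hfull
    _ ≤ _ := hle2

/-- the inputs of which some group is odd switch a gadget on -/
theorem xs_iff {ι : Type} {K L : ℕ} (x : Fin K → ι → Fin L → Bool) :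
    (∃ i : ι × Pat K L, ∀ t, Xs x t i = true) ↔ ¬ Zr x := by
  constructor
  · rintro ⟨⟨τ, p⟩, h⟩ hz
    have h0 : ∀ k, p.1 k = x k τ := fun k => of_decide_eq_true (h k)
    have h3 := hz τ
    have h4 := p.2
    simp only [h0] at h4
    omega
  · intro hz
    unfold Zr at hz
    push Not at hz
    obtain ⟨τ, hτ⟩ := hz
    refine ⟨(τ, ⟨fun k => x k τ, by
      rcases Nat.mod_two_eq_zero_or_one (∑ s, if ∀ k, x k τ s = true then 1 else 0) with h | h
      · exact absurd h hτ
      · exact h⟩), ?_⟩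
    intro t
    exact decide_eq_true rfl

theorem pat_nonempty (M L : ℕ) (hL : 0 < L) : Nonempty (Pat (M + 1) L) :=
  ⟨⟨fun _ s => decide (s = ⟨0, hL⟩), by
    have h : ∀ s : Fin L, (if ∀ _k : Fin (M + 1), decide (s = ⟨0, hL⟩) = true then 1 else 0) =
        if s = ⟨0, hL⟩ then 1 else 0 := by
      intro s
      by_cases hs : s = ⟨0, hL⟩
      · rw [if_pos hs, if_pos (fun _ => decide_eq_true hs)]
      · rw [if_neg hs, if_neg (fun h => hs (of_decide_eq_true (h 0)))]
    rw [Finset.sum_congr rfl fun s _ => h s, Finset.sum_ite_eq' Finset.univ (⟨0, hL⟩ : Fin L),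
      if_pos (Finset.mem_univ _)]⟩⟩

end Pool.Agent.RK
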