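import Mathlib
import Pool.Agent.Lib.MP_0a1b52_lc_RK.Core2
import Pool.Agent.Lib.MP_0a1b52_lc_RK.Arith
import Pool.Agent.Lib.MP_0a1b52_lc_RP.Struct

/-!
# Refutations with few lemmas, module Sys: a family of systems of gadgets
-/

set_option autoImplicit false

namespace Pool.Agent.RK

open Finset Pool.Agent.FP Pool.Agent.RP

/-- the clique property in the larger set of vertices -/
private theorem sys_clique {I : Type} {K a h n N z : ℕ} (hK : 1 ≤ K) (hN : N ≤ n) {w : I → J K z → Fin N}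
    (hw : NoBad a h w) (ha : 1 ≤ a) (hh : 2 ≤ h) (hz : a * h ^ 2 ≤ z + 2 * K) (S : Finset (Fin n))
    (hS : z + 2 * K ≤ S.card)
    (hcov : ∀ u ∈ S, ∀ v ∈ S, u ≠ v → ∃ i j j', Fin.castLE hN (w i j) = u ∧
      Fin.castLE hN (w i j') = v) :
    ∃ i, ∀ u ∈ S, ∃ j, Fin.castLE hN (w i j) = u := by
  classical
  have hcard : Fintype.card (J K z) = z + 2 * K := by
    simp only [J, Fintype.card_sum, Fintype.card_prod, Fintype.card_fin, Fintype.card_bool]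
    omega
  have hinj : Function.Injective (Fin.castLE hN) := Fin.castLE_injective hN
  set S0 : Finset (Fin N) := univ.filter fun u => Fin.castLE hN u ∈ S with hS0
  have hrange : ∀ u ∈ S, ∃ u0 ∈ S0, Fin.castLE hN u0 = u := by
    intro u hu
    obtain ⟨v, hv, hvu⟩ : ∃ v ∈ S, v ≠ u := by
      have h1 : 1 < S.card := by omega
      exact Finset.exists_mem_ne h1 u
    obtain ⟨i, j, j', h1, -⟩ := hcov u hu v hv (Ne.symm hvu)
    exact ⟨w i j, by simp [hS0, h1, hu], h1⟩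
  have himg : S0.image (Fin.castLE hN) = S := by
    ext u
    rw [mem_image]
    constructor
    · rintro ⟨u0, h0, rfl⟩
      rw [hS0, mem_filter] at h0
      exact h0.2
    · intro hu
      obtain ⟨u0, h0, h1⟩ := hrange u hu
      exact ⟨u0, h0, h1⟩
  have hcard0 : S0.card = S.card := by
    rw [← himg, card_image_of_injective _ hinj]
  obtain ⟨i, hi⟩ := hw.clique ha hh (by rw [hcard]; exact hz) S0 (by rw [hcard, hcard0]; exact hS)
    (by
      intro u hu v hv huv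
      rw [hS0, mem_filter] at hu hv
      obtain ⟨i, j, j', h1, h2⟩ := hcov _ hu.2 _ hv.2 fun h => huv (hinj h)
      exact ⟨i, j, j', hinj h1, hinj h2⟩)
  refine ⟨i, fun u hu => ?_⟩
  obtain ⟨u0, h0, rfl⟩ := hrange u hu
  obtain ⟨j, hj⟩ := hi u0 h0
  exact ⟨j, by rw [hj]⟩

open Classical in
theorem system (K : ℕ) (hK : 1 ≤ K) (P : Type) [Fintype P] [Nonempty P] (ε : ℝ) (hε : 0 < ε) :
    ∃ (δ : ℝ) (z n₀ : ℕ), 0 < δ ∧ ∀ n ≥ n₀, z + 2 * K ≤ Nat.sqrt n ∧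
      ∃ (G : ℕ) (Φ : Type) (_ : Fintype Φ) (Λ : Φ → Finset (Fin G))
        (w : Φ → Fin G × P → J K z → Fin n), 0 < Fintype.card Φ ∧
        (∀ φ i j, (w φ i j : ℕ) + (Nat.sqrt n + 1) ≤ n - 1) ∧
        (∀ φ i, i.1 ∈ Λ φ → Function.Injective (w φ i)) ∧
        (∀ (φ : Φ) (i i' : Fin G × P) (j k j' k' : J K z), i.1 ∈ Λ φ → i'.1 ∈ Λ φ → i ≠ i' →
          j ≠ k → w φ i j = w φ i' j' → w φ i k = w φ i' k' → False) ∧
        (∀ (φ : Φ) (S : Finset (Fin n)), z + 2 * K ≤ S.card →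
          (∀ u ∈ S, ∀ v ∈ S, u ≠ v → ∃ i j j', i.1 ∈ Λ φ ∧ w φ i j = u ∧ w φ i j' = v) →
          ∃ i, i.1 ∈ Λ φ ∧ ∀ u ∈ S, ∃ j, w φ i j = u) ∧
        ∀ X : Fin K → Finset (EdgeVar n), (∀ t, (n : ℝ) ^ (2 - δ) ≤ ((X t).card : ℝ)) →
          ((univ.filter fun φ : Φ => (((Λ φ).filter fun τ => ∀ p t,
            Pr (X t) (w φ (τ, p) (.inl (t, false))) (w φ (τ, p) (.inl (t, true)))).card : ℝ) <
            (n : ℝ) ^ (2 - ε)).card : ℝ) ≤
          Fintype.card Φ * (2 : ℝ) ^ (-((n : ℝ) ^ (2 - ε))) := by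
  obtain ⟨δ, a, h, z, n₀, hδ, ha, hh, hz, hA⟩ := arith K (Fintype.card P) hK Fintype.card_pos
    (min ε 1) (lt_min hε one_pos) (min_le_right _ _)
  refine ⟨δ, z, n₀, hδ, fun n hn => ?_⟩
  obtain ⟨h1, h2, h3, G, b, hb0, hb, hC0, hcnt⟩ := hA n hn
  refine ⟨h1, ?_⟩
  set N := n - (Nat.sqrt n + 2) with hNdef
  have hN : N ≤ n := Nat.sub_le _ _
  have hn1 : (1 : ℝ) ≤ n := by
    have : 1 ≤ n := by omega
    exact_mod_cast this
  have hn0 : (0 : ℝ) < n := by linarith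
  have hd0 : (0 : ℝ) ≤ (n : ℝ) ^ (-δ) := Real.rpow_nonneg hn0.le _
  have hd1 : (n : ℝ) ^ (-δ) ≤ 1 := Real.rpow_le_one_of_one_le_of_nonpos hn1 (by linarith)
  have hεn : (n : ℝ) ^ (2 - ε) ≤ (n : ℝ) ^ (2 - min ε 1) :=
    Real.rpow_le_rpow_of_exponent_le hn1 (by linarith [min_le_left ε 1])
  obtain ⟨Φ, hΦ, Λ, w, hΦ0, hw, hgood⟩ := core2 (P := P) (G := G) hN h2 ha hh _ b hd0 hd1 hb hb0
  refine ⟨G, Φ, hΦ, Λ, fun φ i j => Fin.castLE hN (w φ i j), hΦ0, ?_, ?_, ?_, ?_, ?_⟩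
  · intro φ i j
    have h4 := (w φ i j).2
    show (w φ i j : ℕ) + (Nat.sqrt n + 1) ≤ n - 1
    omega
  · intro φ i hi
    exact (Fin.castLE_injective hN).comp ((hw φ).inj ⟨i, hi⟩)
  · intro φ i i' j k j' k' hi hi' hne hj e1 e2
    have e1 := Fin.castLE_injective hN e1
    have e2 := Fin.castLE_injective hN e2
    refine (hw φ).share ⟨i, hi⟩ ⟨i', hi'⟩ j k j' k' (fun h => hne (Subtype.ext_iff.1 h)) hj ?_
      e1 e2
    rintro rfl
    exact hj ((hw φ).inj ⟨i, hi⟩ (e1.trans e2.symm))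
  · intro φ S hS hcov
    obtain ⟨i, hi⟩ := sys_clique hK hN (hw φ) ha hh hz S hS fun u hu v hv huv => by
      obtain ⟨i, j, j', hi, e1, e2⟩ := hcov u hu v hv huv
      exact ⟨⟨i, hi⟩, j, j', e1, e2⟩
    exact ⟨i.1, i.2, hi⟩
  · intro X hX
    have hd : ∀ t, (n : ℝ) ^ (-δ) * (N : ℝ) ^ 2 ≤ ((univ.filter fun q : Fin N × Fin N =>
        Pr (X t) (Fin.castLE hN q.1) (Fin.castLE hN q.2)).card : ℝ) := by
      intro t
      have h4 := pair_card hN (X t)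
      have h5 : n - N = Nat.sqrt n + 2 := by omega
      rw [h5] at h4
      have h6 : 2 * ((X t).card : ℝ) ≤ ((univ.filter fun q : Fin N × Fin N =>
        Pr (X t) (Fin.castLE hN q.1) (Fin.castLE hN q.2)).card : ℝ) +
          2 * (Nat.sqrt n + 2) * n := by exact_mod_cast h4
      have h7 := hX t
      linarith
    have h8 := hgood X hd
    set ρ := ((n : ℝ) ^ (-δ)) ^ (K * Fintype.card P) * G / 4 with hρ
    have h9 : 2 * (2 : ℝ) ^ (-ρ) ≤ (2 : ℝ) ^ (-((n : ℝ) ^ (2 - ε))) := by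
      have h10 : (0 : ℝ) < (2 : ℝ) ^ ((n : ℝ) ^ (2 - min ε 1)) := by positivity
      have h11 : (2 : ℝ) ^ (-ρ) ≤ 1 / 4 * (2 : ℝ) ^ (-((n : ℝ) ^ (2 - min ε 1))) := by
        rw [Real.rpow_neg (by norm_num : (0 : ℝ) ≤ 2) ((n : ℝ) ^ (2 - min ε 1)), ← div_eq_mul_inv,
          le_div_iff₀ h10, mul_comm]
        exact hC0
      have h12 : (2 : ℝ) ^ (-((n : ℝ) ^ (2 - min ε 1))) ≤ (2 : ℝ) ^ (-((n : ℝ) ^ (2 - ε))) :=
        Real.rpow_le_rpow_of_exponent_le (by norm_num) (neg_le_neg hεn)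
      have h13 : (0 : ℝ) < (2 : ℝ) ^ (-((n : ℝ) ^ (2 - min ε 1))) := by positivity
      linarith
    refine le_trans ?_ (h8.trans (mul_le_mul_of_nonneg_left h9 (Nat.cast_nonneg _)))
    have h14 : (univ.filter fun φ : Φ => (((Λ φ).filter fun τ => ∀ p t,
          Pr (X t) (Fin.castLE hN (w φ (τ, p) (.inl (t, false))))
            (Fin.castLE hN (w φ (τ, p) (.inl (t, true))))).card : ℝ) < (n : ℝ) ^ (2 - ε)) ⊆
        univ.filter fun φ : Φ => (((Λ φ).filter fun τ => ∀ p t,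
          Pr (X t) (Fin.castLE hN (w φ (τ, p) (.inl (t, false))))
            (Fin.castLE hN (w φ (τ, p) (.inl (t, true))))).card : ℝ) < ρ - 2 * b := by
      intro φ hφ
      rw [mem_filter] at hφ ⊢
      exact ⟨mem_univ _, lt_of_lt_of_le hφ.2 (hεn.trans hcnt)⟩
    exact_mod_cast card_le_card h14

end Pool.Agent.RK
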