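import Mathlib
import Pool.Agent.Lib.MP_0a1b52_lc_RK.Sys
import Pool.Agent.Lib.MP_0a1b52_lc_RK.Clq
import Pool.Agent.Lib.MP_0a1b52_lc_RK.Meas

/-!
# Refutations with few lemmas, module Emb: one family of rejected graphs, hard for all sets `X k`
-/

set_option autoImplicit false

namespace Pool.Agent.RK

open Finset Pool.Agent.FP Pool.Agent.RP

private theorem emb_pr {n : ℕ} {X : Finset (EdgeVar n)} {u v : Fin n} (h : Pr X u v)
    (e : EdgeVar n) (he : e ∉ X) : ¬ (e.1 = (u, v) ∨ e.1 = (v, u)) := by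
  obtain ⟨e', h1, h2⟩ := h
  have a1 := e.2
  have a2 := e'.2
  rintro (h3 | h3)
  · rcases h2 with h2 | h2
    · exact he ((Subtype.ext (h3.trans h2.symm) : e = e') ▸ h1)
    · rw [h3] at a1
      rw [h2] at a2
      exact lt_asymm a1 a2
  · rcases h2 with h2 | h2
    · rw [h3] at a1
      rw [h2] at a2
      exact lt_asymm a1 a2
    · exact he ((Subtype.ext (h3.trans h2.symm) : e = e') ▸ h1)

/-- the graph of the input `x` with the gadgets of the groups in `Λ` -/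
private noncomputable def emb_gr {G n K L z : ℕ} (Λ : Finset (Fin G))
    (w : Fin G × Pat K L → J K z → Fin n) (x : Fin K → Fin G → Fin L → Bool) :
    EdgeVar n → Bool :=
  GG (fun i : {i : Fin G × Pat K L // i.1 ∈ Λ} => w i.1) (fun t i => Xs x t i.1)

private theorem emb_indep {G n K L z : ℕ} (Λ : Finset (Fin G))
    (w : Fin G × Pat K L → J K z → Fin n) (X : Fin K → Finset (EdgeVar n)) (Γ : Finset (Fin G))
    (hΓ : ∀ τ ∈ Γ, ∀ p t, Pr (X t) (w (τ, p) (.inl (t, false))) (w (τ, p) (.inl (t, true))))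
    (k : Fin K) (x y : Fin K → Fin G → Fin L → Bool) (h1 : ∀ j, j ≠ k → y j = x j)
    (h2 : ∀ τ ∉ Γ, y k τ = x k τ) (e : EdgeVar n) (he : e ∉ X k) :
    emb_gr Λ w y e = emb_gr Λ w x e := by
  refine clq_indep _ _ _ e fun t i hne => ?_
  have ht : t = k := by
    by_contra hc
    refine hne ?_
    simp only [Xs, h1 t hc]
  subst ht
  have hi : i.1.1 ∈ Γ := by
    by_contra hc
    refine hne ?_
    simp only [Xs, h2 _ hc]
  exact emb_pr (hΓ i.1.1 hi i.1.2 t) e he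

/-- one star-closed set of rejected graphs -/
private theorem emb_one {G n M z : ℕ} (Λ : Finset (Fin G))
    (w : Fin G × Pat (M + 1) (2 * 4 ^ M) → J (M + 1) z → Fin n)
    (X : Fin (M + 1) → Finset (EdgeVar n)) (Γ : Finset (Fin G)) (hΓΛ : ∀ τ ∈ Γ, τ ∈ Λ)
    (hΓ : ∀ τ ∈ Γ, ∀ p t, Pr (X t) (w (τ, p) (.inl (t, false))) (w (τ, p) (.inl (t, true))))
    (Z S : Finset (Fin (M + 1) → Fin G → Fin (2 * 4 ^ M) → Bool))
    (hZ : ∀ x, x ∈ Z ↔ Zr x) (T : (EdgeVar n → Bool) → Prop) (hT : StarK X T)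
    (hTZ : ∀ x : Fin (M + 1) → Fin G → Fin (2 * 4 ^ M) → Bool, T (emb_gr Λ w x) →
      ∀ τ ∈ Λ, (∑ s, if ∀ k, x k τ s = true then 1 else 0) % 2 = 0)
    (hS : ∀ x : Fin (M + 1) → Fin G → Fin (2 * 4 ^ M) → Bool, x ∈ S ↔
      Zr x ∧ T (emb_gr Λ w x)) :
    S.card * 2 ^ Γ.card ≤ Z.card := by
  refine measure M Γ Z S hZ ?_ ?_
  · intro x h
    exact (hZ x).2 ((hS x).1 h).1
  · intro x y h1 h2 h3
    rw [hS]
    have h4 : ∀ k, Zr (y k) ∧ T (emb_gr Λ w (y k)) := fun k => (hS _).1 (h3 k)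
    have hTu : T (emb_gr Λ w x) := by
      refine hT _ (fun k => emb_gr Λ w (y k)) ?_ fun k => (h4 k).2
      intro k e he
      exact emb_indep Λ w X Γ hΓ k x (y k) (h1 k) (h2 k) e he
    refine ⟨fun τ => ?_, hTu⟩
    by_cases hτ : τ ∈ Γ
    · exact hTZ x hTu τ (hΓΛ τ hτ)
    · have h5 := (h4 0).1 τ
      have h6 : ∀ k, y 0 k τ = x k τ := by
        intro k
        by_cases hk : k = 0
        · subst hk
          exact h2 0 τ hτ
        · rw [h1 0 k hk]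
      simp only [h6] at h5
      exact h5

/-- the rejected graphs -/
private theorem emb_clq {G n K L z : ℕ} (hK : 0 < K) (Λ : Finset (Fin G))
    (w : Fin G × Pat K L → J K z → Fin n) (hz : z + 2 * K ≤ Nat.sqrt n)
    (hbase : ∀ i j, (w i j : ℕ) + (Nat.sqrt n + 1) ≤ n - 1)
    (hinj : ∀ i, i.1 ∈ Λ → Function.Injective (w i))
    (hshare : ∀ (i i' : Fin G × Pat K L) (j k j' k' : J K z), i.1 ∈ Λ → i'.1 ∈ Λ → i ≠ i' →
      j ≠ k → w i j = w i' j' → w i k = w i' k' → False)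
    (hclq : ∀ S : Finset (Fin n), z + 2 * K ≤ S.card →
      (∀ u ∈ S, ∀ v ∈ S, u ≠ v → ∃ i j j', i.1 ∈ Λ ∧ w i j = u ∧ w i j' = v) →
      ∃ i, i.1 ∈ Λ ∧ ∀ u ∈ S, ∃ j, w i j = u)
    (x : Fin K → Fin G → Fin L → Bool) :
    Clq (emb_gr Λ w x) ↔ ∃ i : Fin G × Pat K L, i.1 ∈ Λ ∧ ∀ t, Xs x t i = true := by
  unfold emb_gr
  rw [clq_iff hK (fun i : {i : Fin G × Pat K L // i.1 ∈ Λ} => w i.1) hz (fun i j => hbase i.1 j)
    (fun i => hinj i.1 i.2) (fun i i' j k j' k' h => hshare i.1 i'.1 j k j' k' i.2 i'.2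
      (fun h' => h (Subtype.ext h')))
    (fun S hS h => by
      obtain ⟨i, hi, hi'⟩ := hclq S hS (fun u hu v hv huv => by
        obtain ⟨i, j, j', h1, h2⟩ := h u hu v hv huv
        exact ⟨i.1, j, j', i.2, h1, h2⟩)
      exact ⟨⟨i, hi⟩, hi'⟩)]
  constructor
  · rintro ⟨i, hi⟩
    exact ⟨i.1, i.2, hi⟩
  · rintro ⟨i, hi, h⟩
    exact ⟨⟨i, hi⟩, h⟩

private theorem emb_even {G K L : ℕ} (Λ : Finset (Fin G)) (x : Fin K → Fin G → Fin L → Bool)
    (h : ¬ ∃ i : Fin G × Pat K L, i.1 ∈ Λ ∧ ∀ t, Xs x t i = true) (τ : Fin G) (hτ : τ ∈ Λ) :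
    (∑ s, if ∀ k, x k τ s = true then 1 else 0) % 2 = 0 := by
  by_contra hc
  have h1 : (∑ s, if ∀ k, x k τ s = true then 1 else 0) % 2 = 1 := by omega
  exact h ⟨(τ, ⟨fun k => x k τ, h1⟩), hτ, fun t => decide_eq_true rfl⟩

private theorem emb_arith (ε : ℝ) (hε : 0 < ε) : ∃ n₁ : ℕ, ∀ n ≥ n₁,
    (n : ℝ) ^ (2 - ε) + 1 ≤ (n : ℝ) ^ (2 - min ε 1 / 2) := by
  have h1 : 0 < min ε 1 := lt_min hε one_pos
  obtain ⟨m, hm⟩ := exists_nat_ge ((2 : ℝ) ^ (2 / min ε 1))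
  refine ⟨m + 1, fun n hn => ?_⟩
  have hmn : (m : ℝ) + 1 ≤ n := by exact_mod_cast hn
  have hn0 : (1 : ℝ) ≤ n := by
    have : (0 : ℝ) ≤ m := Nat.cast_nonneg m
    linarith
  have hpos : (0 : ℝ) < n := by linarith
  have h2 : (2 : ℝ) ≤ (n : ℝ) ^ (min ε 1 / 2) := by
    have h3 : (2 : ℝ) ^ (2 / min ε 1) ≤ n := by linarith
    calc (2 : ℝ) = ((2 : ℝ) ^ (2 / min ε 1)) ^ (min ε 1 / 2) := by
          rw [← Real.rpow_mul (by norm_num)]
          have : 2 / min ε 1 * (min ε 1 / 2) = 1 := by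
            field_simp
          rw [this, Real.rpow_one]
      _ ≤ (n : ℝ) ^ (min ε 1 / 2) := Real.rpow_le_rpow (by positivity) h3 (by positivity)
  have h4 : (n : ℝ) ^ (2 - min ε 1 / 2) = (n : ℝ) ^ (2 - min ε 1) * (n : ℝ) ^ (min ε 1 / 2) := by
    rw [← Real.rpow_add hpos]
    congr 1
    ring
  have h5 : (n : ℝ) ^ (2 - ε) ≤ (n : ℝ) ^ (2 - min ε 1) :=
    Real.rpow_le_rpow_of_exponent_le hn0 (by linarith [min_le_left ε 1])
  have h6 : (1 : ℝ) ≤ (n : ℝ) ^ (2 - min ε 1) :=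
    Real.one_le_rpow hn0 (by linarith [min_le_right ε 1])
  rw [h4]
  nlinarith

open Classical in
theorem embed (M : ℕ) (ε : ℝ) (hε : 0 < ε) : ∃ (δ : ℝ) (n₀ : ℕ), 0 < δ ∧ ∀ n ≥ n₀,
    ∃ (N : ℕ) (Q : Fin N → EdgeVar n → Bool), 0 < N ∧ (∀ i, ¬ Clq (Q i)) ∧
      ∀ X : Fin (M + 1) → Finset (EdgeVar n), (∀ t, (n : ℝ) ^ (2 - δ) ≤ ((X t).card : ℝ)) →
      ∀ T : (EdgeVar n → Bool) → Prop, StarK X T → (∀ x, T x → ¬ Clq x) →
        ((univ.filter fun i => T (Q i)).card : ℝ) ≤ N * (2 : ℝ) ^ (-((n : ℝ) ^ (2 - ε))) := by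
  have hPat := pat_nonempty M (2 * 4 ^ M) (by positivity)
  have h1 : 0 < min ε 1 := lt_min hε one_pos
  obtain ⟨δ, z, n₀, hδ, hsys⟩ := system (M + 1) (Nat.succ_pos M) (Pat (M + 1) (2 * 4 ^ M))
    (min ε 1 / 2) (by positivity)
  obtain ⟨n₁, hn₁⟩ := emb_arith ε hε
  refine ⟨δ, max n₀ n₁, hδ, fun n hn => ?_⟩
  obtain ⟨hz, G, Φ, hΦ, Λ, w, hΦc, hbase, hinj, hshare, hclq, hgood⟩ :=
    hsys n (le_trans (le_max_left _ _) hn)
  have har := hn₁ n (le_trans (le_max_right _ _) hn)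
  let Z : Finset (Fin (M + 1) → Fin G → Fin (2 * 4 ^ M) → Bool) := univ.filter fun x => Zr x
  have hZ : ∀ x, x ∈ Z ↔ Zr x := by
    intro x
    simp [Z]
  have hcl : ∀ φ x, Clq (emb_gr (Λ φ) (w φ) x) ↔
      ∃ i : Fin G × Pat (M + 1) (2 * 4 ^ M), i.1 ∈ Λ φ ∧ ∀ t, Xs x t i = true := fun φ x =>
    emb_clq (Nat.succ_pos M) (Λ φ) (w φ) hz (hbase φ) (hinj φ) (hshare φ) (hclq φ) x
  have hZpos : 0 < Z.card := by
    refine Finset.card_pos.2 ⟨fun _ _ _ => false, ?_⟩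
    rw [hZ]
    intro τ
    simp
  let E := (Fintype.equivFin (Φ × ↥Z)).symm
  have hN : Fintype.card (Φ × ↥Z) = Fintype.card Φ * Z.card := by
    rw [Fintype.card_prod, Fintype.card_coe]
  refine ⟨Fintype.card (Φ × ↥Z), fun i => emb_gr (Λ (E i).1) (w (E i).1) (E i).2.1, ?_, ?_, ?_⟩
  · rw [hN]
    exact Nat.mul_pos hΦc hZpos
  · intro i h
    rw [hcl] at h
    obtain ⟨j, -, hj⟩ := h
    exact (xs_iff _).1 ⟨j, hj⟩ ((hZ _).1 (E i).2.2)
  intro X hXc T hT hTC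
  have hbad := hgood X hXc
  set Bad : Finset Φ := univ.filter fun φ : Φ => (((Λ φ).filter fun τ => ∀ p t,
    Pr (X t) (w φ (τ, p) (.inl (t, false))) (w φ (τ, p) (.inl (t, true)))).card : ℝ) <
    (n : ℝ) ^ (2 - min ε 1 / 2) with hBad
  let S : Φ → Finset (Fin (M + 1) → Fin G → Fin (2 * 4 ^ M) → Bool) :=
    fun φ => Z.filter fun q => T (emb_gr (Λ φ) (w φ) q)
  set a : ℝ := (2 : ℝ) ^ (-((n : ℝ) ^ (2 - min ε 1 / 2))) with ha
  have ha0 : 0 < a := by positivity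
  have hS : ∀ φ, ((S φ).card : ℝ) ≤ Z.card * a + if φ ∈ Bad then (Z.card : ℝ) else 0 := by
    intro φ
    by_cases hφ : φ ∈ Bad
    · rw [if_pos hφ]
      have h2 : ((S φ).card : ℝ) ≤ Z.card := by
        exact_mod_cast Finset.card_filter_le _ _
      have h3 : 0 ≤ (Z.card : ℝ) * a := by positivity
      linarith
    · rw [if_neg hφ, add_zero]
      have h2 : (n : ℝ) ^ (2 - min ε 1 / 2) ≤ (((Λ φ).filter fun τ => ∀ p t,
          Pr (X t) (w φ (τ, p) (.inl (t, false))) (w φ (τ, p) (.inl (t, true)))).card : ℝ) := by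
        by_contra hc
        exact hφ (Finset.mem_filter.2 ⟨Finset.mem_univ _, not_le.1 hc⟩)
      set Γ : Finset (Fin G) := (Λ φ).filter fun τ => ∀ p t,
        Pr (X t) (w φ (τ, p) (.inl (t, false))) (w φ (τ, p) (.inl (t, true))) with hΓ
      have h3 : (S φ).card * 2 ^ Γ.card ≤ Z.card := by
        refine emb_one (Λ φ) (w φ) X Γ ?_ ?_ Z (S φ) hZ T hT ?_ ?_
        · intro τ hτ
          exact (Finset.mem_filter.1 hτ).1
        · intro τ hτ
          exact (Finset.mem_filter.1 hτ).2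
        · intro x h τ hτ
          exact emb_even (Λ φ) x (fun hc => hTC _ h ((hcl φ x).2 hc)) τ hτ
        · intro x
          rw [Finset.mem_filter, hZ]
      have h4 : (2 : ℝ) ^ ((n : ℝ) ^ (2 - min ε 1 / 2)) ≤ (2 : ℝ) ^ Γ.card := by
        rw [← Real.rpow_natCast]
        exact Real.rpow_le_rpow_of_exponent_le (by norm_num) h2
      have h5 : ((S φ).card : ℝ) * (2 : ℝ) ^ Γ.card ≤ Z.card := by exact_mod_cast h3
      have h6 : ((S φ).card : ℝ) * (2 : ℝ) ^ ((n : ℝ) ^ (2 - min ε 1 / 2)) ≤ Z.card :=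
        le_trans (mul_le_mul_of_nonneg_left h4 (Nat.cast_nonneg _)) h5
      rw [ha, Real.rpow_neg (by norm_num), ← div_eq_mul_inv, le_div_iff₀ (by positivity)]
      exact h6
  have hsum : (univ.filter fun i : Fin (Fintype.card (Φ × ↥Z)) =>
      T (emb_gr (Λ (E i).1) (w (E i).1) (E i).2.1)).card = ∑ φ : Φ, (S φ).card := by
    rw [Finset.card_filter]
    rw [Equiv.sum_comp E (fun b : Φ × ↥Z =>
      if T (emb_gr (Λ b.1) (w b.1) b.2.1) then (1 : ℕ) else 0), Fintype.sum_prod_type]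
    refine Finset.sum_congr rfl fun φ _ => ?_
    rw [Finset.card_filter]
    exact Finset.sum_coe_sort Z (fun q => if T (emb_gr (Λ φ) (w φ) q) then (1 : ℕ) else 0)
  have hΦ0 : (0 : ℝ) < Fintype.card Φ := by exact_mod_cast hΦc
  have hZ0 : (0 : ℝ) < Z.card := by exact_mod_cast hZpos
  have hfin : ((∑ φ : Φ, (S φ).card : ℕ) : ℝ) ≤ Fintype.card Φ * Z.card * (2 * a) := by
    push_cast
    calc ∑ φ : Φ, ((S φ).card : ℝ)
        ≤ ∑ φ : Φ, (Z.card * a + if φ ∈ Bad then (Z.card : ℝ) else 0) :=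
          Finset.sum_le_sum fun φ _ => hS φ
      _ = Fintype.card Φ * (Z.card * a) + Bad.card * Z.card := by
          rw [Finset.sum_add_distrib, Finset.sum_const, Finset.card_univ, nsmul_eq_mul,
            Finset.sum_ite_mem, Finset.univ_inter, Finset.sum_const, nsmul_eq_mul]
      _ ≤ Fintype.card Φ * (Z.card * a) + (Fintype.card Φ * a) * Z.card := by
          have := mul_le_mul_of_nonneg_right hbad hZ0.le
          linarith
      _ = Fintype.card Φ * Z.card * (2 * a) := by ring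
  have h2a : 2 * a ≤ (2 : ℝ) ^ (-((n : ℝ) ^ (2 - ε))) := by
    have h3 : 2 * a = (2 : ℝ) ^ (1 + -((n : ℝ) ^ (2 - min ε 1 / 2))) := by
      rw [Real.rpow_add (by norm_num), Real.rpow_one]
    rw [h3]
    exact Real.rpow_le_rpow_of_exponent_le (by norm_num) (by linarith)
  rw [hsum, hN]
  push_cast at hfin ⊢
  refine hfin.trans ?_
  exact mul_le_mul_of_nonneg_left h2a (by positivity)

end Pool.Agent.RK
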