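import Mathlib
import Pool.Agent.Lib.MP_0a1b52_lc_RK.Cov

/-!
# Refutations with few lemmas, module Lists: `r` lists give `2 r` lemmas
-/

set_option autoImplicit false

namespace Pool.Agent.RK

open Pool.Agent.FP

/-- the list `l` reads no variable of `X t` -/
private def Lists_Ig {V : Type} {K : ℕ} (X : Fin K → Finset V) (t : Fin K) (l : List V) : Prop :=
  ∀ v ∈ l, v ∉ X t

/-- any two lists ignore a common set -/
private def Lists_Good {V : Type} {K : ℕ} (X : Fin K → Finset V) (P : List (List V)) : Prop :=
  ∀ l ∈ P, ∀ l' ∈ P, ∃ t, Lists_Ig X t l ∧ Lists_Ig X t l'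

/-- a list of lemmas, each shown from later ones in the list -/
private def Lists_Ch {V : Type} {s K : ℕ} (D : Circuit V s) (x : V → Bool) (X : Fin K → Finset V) :
    List (Fin K × Fin s) → Prop
  | [] => True
  | q :: A => Der D x (X q.1) (fun h => ∃ q' ∈ A, q'.2 = h) q.2 ∧ Lists_Ch D x X A

section

variable {V : Type} {s K : ℕ} {D : Circuit V s} {x : V → Bool} {X : Fin K → Finset V}

private theorem Lists_Ch.append {A B : List (Fin K × Fin s)} (hA : Lists_Ch D x X A)
    (hB : Lists_Ch D x X B) : Lists_Ch D x X (A ++ B) := by
  induction A with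
  | nil => exact hB
  | cons q A ih =>
    refine ⟨hA.1.mono ?_, ih hA.2⟩
    rintro h ⟨q', h1, h2⟩
    exact ⟨q', List.mem_append_left _ h1, h2⟩

private theorem Lists_Ch.get {A : List (Fin K × Fin s)} (hA : Lists_Ch D x X A) :
    ∀ (a : ℕ) (ha : a < A.length), Der D x (X (A[a]).1)
      (fun h => ∃ (b : ℕ) (hb : b < A.length), a < b ∧ (A[b]).2 = h) (A[a]).2 := by
  induction A with
  | nil => intro a ha; simp at ha
  | cons q A ih =>
    intro a ha
    cases a with
    | zero =>
      simp only [List.getElem_cons_zero]
      refine hA.1.mono ?_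
      rintro h ⟨q', h1, h2⟩
      obtain ⟨b, hb, rfl⟩ := List.mem_iff_getElem.1 h1
      exact ⟨b + 1, by simpa using hb, by omega, by simpa using h2⟩
    | succ a =>
      simp only [List.getElem_cons_succ]
      refine (ih hA.2 a (by simpa using ha)).mono ?_
      rintro h ⟨b, hb, h1, h2⟩
      exact ⟨b + 1, by simpa using hb, by omega, by simpa using h2⟩

/-- the claim for one gate -/
private def Lists_Cl (D : Circuit V s) (x : V → Bool) (X : Fin K → Finset V) (g : Fin s)
    (L : List V) : Prop :=
  ∀ P : List (List V), P.flatten = L → Lists_Good X P → ∀ t, (∀ l ∈ P.head?, Lists_Ig X t l) →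
    (∀ l ∈ P.getLast?, Lists_Ig X t l) → ∃ A : List (Fin K × Fin s),
      A.length ≤ 2 * (P.length - 2) ∧ Lists_Ch D x X A ∧
      Der D x (X t) (fun h => ∃ q ∈ A, q.2 = h) g

private theorem Lists_ne_nil {g : Fin s} {L : List V} (h : D.Refutes x g L) : L ≠ [] := by
  induction h with
  | lit => simp
  | left => assumption
  | right => assumption
  | both g i j L L' h1 _ _ ih _ => simp [ih]

/-- the cut child -/
private theorem Lists_cut {g : Fin s} {P : List (List V)} (h : Lists_Cl D x X g P.flatten)
    (hP : Lists_Good X P) (hne : P ≠ []) : ∃ A : List (Fin K × Fin s),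
      A.length ≤ 2 * (P.length - 2) + 1 ∧ Lists_Ch D x X A ∧
      ∀ t, Der D x (X t) (fun h => ∃ q ∈ A, q.2 = h) g := by
  obtain ⟨t, h1, h2⟩ := hP _ (List.head_mem hne) _ (List.getLast_mem hne)
  obtain ⟨A, hA, hA', hA''⟩ := h P rfl hP t
    (fun l hl => by
      rw [List.head?_eq_some_head hne, Option.mem_some_iff] at hl
      rwa [← hl])
    (fun l hl => by
      rw [List.getLast?_eq_some_getLast hne, Option.mem_some_iff] at hl
      rwa [← hl])
  refine ⟨(t, g) :: A, by simp only [List.length_cons]; omega, ⟨hA'', hA'⟩, fun t' => ?_⟩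
  exact .known g ⟨(t, g), List.mem_cons_self, rfl⟩

private theorem Lists_both {g i j : Fin s} (hg : D.gate g = .or i j) {t : Fin K}
    {A B : List (Fin K × Fin s)} (hA : Lists_Ch D x X A) (hB : Lists_Ch D x X B)
    (h1 : Der D x (X t) (fun h => ∃ q ∈ A, q.2 = h) i)
    (h2 : Der D x (X t) (fun h => ∃ q ∈ B, q.2 = h) j) :
    Lists_Ch D x X (A ++ B) ∧ Der D x (X t) (fun h => ∃ q ∈ A ++ B, q.2 = h) g := by
  refine ⟨hA.append hB, .both g i j hg (h1.mono ?_) (h2.mono ?_)⟩
  · rintro h ⟨q, h3, h4⟩
    exact ⟨q, List.mem_append_left _ h3, h4⟩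
  · rintro h ⟨q, h3, h4⟩
    exact ⟨q, List.mem_append_right _ h3, h4⟩

private theorem Lists_main {g : Fin s} {L : List V} (h : D.Refutes x g L) :
    Lists_Cl D x X g L := by
  induction h with
  | lit g v b h1 h2 =>
    intro P hL hP t hh hl
    by_cases hv : v ∈ X t
    · have hm : v ∈ P.flatten := by rw [hL]; simp
      obtain ⟨l, hlP, hvl⟩ := List.mem_flatten.1 hm
      obtain ⟨t', h3, -⟩ := hP l hlP l hlP
      have hlen : 3 ≤ P.length := by
        match P, hL, hh, hl, hlP with
        | [a], _, hh, hl, hlP =>
          simp only [List.mem_singleton] at hlP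
          subst hlP
          exact absurd hv (hh l (by simp) v hvl)
        | [a, c], _, hh, hl, hlP =>
          simp only [List.mem_cons, List.not_mem_nil, or_false] at hlP
          rcases hlP with rfl | rfl
          · exact absurd hv (hh l (by simp) v hvl)
          · exact absurd hv (hl l (by simp) v hvl)
        | a :: c :: d :: P, _, _, _, _ => simp
      refine ⟨[(t', g)], by simp only [List.length_singleton]; omega, ⟨?_, trivial⟩,
        .known g ⟨(t', g), by simp, rfl⟩⟩
      exact .lit g v b h1 h2 (h3 v hvl)
    · exact ⟨[], by simp, trivial, .lit g v b h1 h2 hv⟩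
  | left g i j L h1 _ ih =>
    intro P hL hP t hh hl
    obtain ⟨A, hA, hA', hA''⟩ := ih P hL hP t hh hl
    exact ⟨A, hA, hA', .left g i j h1 hA''⟩
  | right g i j L h1 _ ih =>
    intro P hL hP t hh hl
    obtain ⟨A, hA, hA', hA''⟩ := ih P hL hP t hh hl
    exact ⟨A, hA, hA', .right g i j h1 hA''⟩
  | both g i j L L' h1 hL hL' ih ih' =>
    intro P hPL hP t hh hl
    have hne := Lists_ne_nil hL
    have hne' := Lists_ne_nil hL'
    rcases List.flatten_eq_append_iff.1 hPL with ⟨as, bs, rfl, rfl, rfl⟩ |
      ⟨as, bs, c, cs, ds, rfl, rfl, rfl⟩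
    · -- cut between two lists
      have ha : as ≠ [] := by
        rintro rfl
        exact hne rfl
      have hb : bs ≠ [] := by
        rintro rfl
        exact hne' rfl
      have hPa : Lists_Good X as := fun l hl l' hl' =>
        hP l (List.mem_append_left _ hl) l' (List.mem_append_left _ hl')
      have hPb : Lists_Good X bs := fun l hl l' hl' =>
        hP l (List.mem_append_right _ hl) l' (List.mem_append_right _ hl')
      have hla : 1 ≤ as.length := List.length_pos_of_ne_nil ha
      have hlb : 1 ≤ bs.length := List.length_pos_of_ne_nil hb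
      -- the left child
      obtain ⟨A, hA, hA', hA''⟩ : ∃ A : List (Fin K × Fin s),
          A.length ≤ 2 * (as.length - 2) + (if as.length = 1 then 0 else 1) ∧
          Lists_Ch D x X A ∧ Der D x (X t) (fun h => ∃ q ∈ A, q.2 = h) i := by
        by_cases h1a : as.length = 1
        · obtain ⟨l, rfl⟩ := List.length_eq_one_iff.1 h1a
          obtain ⟨A, hA, hA', hA''⟩ := ih [l] rfl hPa t (fun l' hl' => hh l' (by simpa using hl'))
            (fun l' hl' => hh l' (by simpa using hl'))
          exact ⟨A, by simpa using hA, hA', hA''⟩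
        · obtain ⟨A, hA, hA', hA''⟩ := Lists_cut ih hPa ha
          exact ⟨A, by rw [if_neg h1a]; exact hA, hA', hA'' t⟩
      obtain ⟨B, hB, hB', hB''⟩ : ∃ B : List (Fin K × Fin s),
          B.length ≤ 2 * (bs.length - 2) + (if bs.length = 1 then 0 else 1) ∧
          Lists_Ch D x X B ∧ Der D x (X t) (fun h => ∃ q ∈ B, q.2 = h) j := by
        by_cases h1b : bs.length = 1
        · obtain ⟨l, rfl⟩ := List.length_eq_one_iff.1 h1b
          obtain ⟨B, hB, hB', hB''⟩ := ih' [l] rfl hPb t (fun l' hl' => hl l' (by simpa using hl'))
            (fun l' hl' => hl l' (by simpa using hl'))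
          exact ⟨B, by simpa using hB, hB', hB''⟩
        · obtain ⟨B, hB, hB', hB''⟩ := Lists_cut ih' hPb hb
          exact ⟨B, by rw [if_neg h1b]; exact hB, hB', hB'' t⟩
      obtain ⟨h2, h3⟩ := Lists_both h1 hA' hB' hA'' hB''
      refine ⟨A ++ B, ?_, h2, h3⟩
      rw [List.length_append, List.length_append]
      split_ifs at hA hB <;> omega
    · -- cut inside a list
      have hm : (bs ++ c :: cs) ∈ as ++ (bs ++ c :: cs) :: ds := by simp
      have hsub : ∀ l ∈ as ++ [bs], ∃ l' ∈ as ++ (bs ++ c :: cs) :: ds, ∀ v ∈ l, v ∈ l' := by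
        intro l hl
        rcases List.mem_append.1 hl with h | h
        · exact ⟨l, List.mem_append_left _ h, fun v hv => hv⟩
        · rw [List.mem_singleton] at h
          subst h
          exact ⟨_, hm, fun v hv => List.mem_append_left _ hv⟩
      have hsub' : ∀ l ∈ (c :: cs) :: ds, ∃ l' ∈ as ++ (bs ++ c :: cs) :: ds,
          ∀ v ∈ l, v ∈ l' := by
        intro l hl
        rcases List.mem_cons.1 hl with h | h
        · subst h
          exact ⟨_, hm, fun v hv => List.mem_append_right _ hv⟩
        · exact ⟨l, List.mem_append_right _ (List.mem_cons_of_mem _ h), fun v hv => hv⟩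
      have hPa : Lists_Good X (as ++ [bs]) := by
        intro l hl l' hl'
        obtain ⟨m, hm1, hm2⟩ := hsub l hl
        obtain ⟨m', hm1', hm2'⟩ := hsub l' hl'
        obtain ⟨t, ht, ht'⟩ := hP m hm1 m' hm1'
        exact ⟨t, fun v hv => ht v (hm2 v hv), fun v hv => ht' v (hm2' v hv)⟩
      have hPb : Lists_Good X ((c :: cs) :: ds) := by
        intro l hl l' hl'
        obtain ⟨m, hm1, hm2⟩ := hsub' l hl
        obtain ⟨m', hm1', hm2'⟩ := hsub' l' hl'
        obtain ⟨t, ht, ht'⟩ := hP m hm1 m' hm1'
        exact ⟨t, fun v hv => ht v (hm2 v hv), fun v hv => ht' v (hm2' v hv)⟩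
      have ea : (as ++ [bs]).flatten = as.flatten ++ bs := by simp
      have eb : ((c :: cs) :: ds).flatten = c :: cs ++ ds.flatten := by simp
      have hna : (as ++ [bs]) ≠ [] := by simp
      by_cases ha : as = []
      · -- the first list is cut
        subst ha
        have hig : Lists_Ig X t (bs ++ c :: cs) := hh _ (by simp)
        obtain ⟨A, hA, hA', hA''⟩ := ih ([] ++ [bs]) ea hPa t
          (fun l' hl' v hv => by
            simp only [List.nil_append, List.head?_cons, Option.mem_some_iff] at hl'
            subst hl'
            exact hig v (List.mem_append_left _ hv))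
          (fun l' hl' v hv => by
            simp only [List.nil_append, List.getLast?_singleton, Option.mem_some_iff] at hl'
            subst hl'
            exact hig v (List.mem_append_left _ hv))
        obtain ⟨B, hB, hB', hB''⟩ := ih' ((c :: cs) :: ds) eb hPb t
          (fun l' hl' v hv => by
            simp only [List.head?_cons, Option.mem_some_iff] at hl'
            subst hl'
            exact hig v (List.mem_append_right _ hv))
          (fun l' hl' => by
            by_cases hd : ds = []
            · subst hd
              simp only [List.getLast?_singleton, Option.mem_some_iff] at hl'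
              subst hl'
              exact fun v hv => hig v (List.mem_append_right _ hv)
            · apply hl
              rw [List.nil_append, List.getLast?_cons_of_ne_nil hd]
              rwa [List.getLast?_cons_of_ne_nil hd] at hl')
        obtain ⟨h2, h3⟩ := Lists_both h1 hA' hB' hA'' hB''
        refine ⟨A ++ B, ?_, h2, h3⟩
        simp only [List.length_append, List.nil_append, List.length_cons, List.length_nil] at hA hB ⊢
        omega
      · by_cases hd : ds = []
        · -- the last list is cut
          subst hd
          have hig : Lists_Ig X t (bs ++ c :: cs) := hl _ (by simp)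
          obtain ⟨A, hA, hA', hA''⟩ := ih (as ++ [bs]) ea hPa t
            (fun l' hl' => by
              apply hh
              rw [List.head?_append_of_ne_nil _ ha]
              rwa [List.head?_append_of_ne_nil _ ha] at hl')
            (fun l' hl' v hv => by
              simp only [List.getLast?_append, List.getLast?_singleton, Option.some_or,
                Option.mem_some_iff] at hl'
              subst hl'
              exact hig v (List.mem_append_left _ hv))
          obtain ⟨B, hB, hB', hB''⟩ := ih' ((c :: cs) :: []) eb hPb t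
            (fun l' hl' v hv => by
              simp only [List.head?_cons, Option.mem_some_iff] at hl'
              subst hl'
              exact hig v (List.mem_append_right _ hv))
            (fun l' hl' v hv => by
              simp only [List.getLast?_singleton, Option.mem_some_iff] at hl'
              subst hl'
              exact hig v (List.mem_append_right _ hv))
          obtain ⟨h2, h3⟩ := Lists_both h1 hA' hB' hA'' hB''
          refine ⟨A ++ B, ?_, h2, h3⟩
          simp only [List.length_append, List.length_cons, List.length_nil] at hA hB ⊢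
          omega
        · -- a middle list is cut
          rw [← ea] at ih
          rw [← eb] at ih'
          obtain ⟨A, hA, hA', hA''⟩ := Lists_cut ih hPa hna
          obtain ⟨B, hB, hB', hB''⟩ := Lists_cut ih' hPb (by simp)
          obtain ⟨h2, h3⟩ := Lists_both h1 hA' hB' (hA'' t) (hB'' t)
          refine ⟨A ++ B, ?_, h2, h3⟩
          have hla : 1 ≤ as.length := List.length_pos_of_ne_nil ha
          have hld : 1 ≤ ds.length := List.length_pos_of_ne_nil hd
          simp only [List.length_append, List.length_cons, List.length_nil] at hA hB ⊢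
          omega

private theorem Lists_pad {A : List (Fin K × Fin s)} (hA : Lists_Ch D x X A) {q : Fin K × Fin s}
    (hq : q ∈ A) : ∀ n : ℕ, Lists_Ch D x X (List.replicate n q ++ A)
  | 0 => hA
  | n + 1 => by
    rw [List.replicate_succ, List.cons_append]
    exact ⟨.known _ ⟨q, List.mem_append_right _ hq, rfl⟩, Lists_pad hA hq n⟩

end

/-- a refutation tree whose word is cut into `r` lists, any two of which ignore a common set, gives
a refutation with `2 r` lemmas -/
theorem lists {V : Type} {s K : ℕ} (D : Circuit V s) (x : V → Bool) (X : Fin K → Finset V)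
    (P : List (List V)) (hP : D.Refutes x D.out P.flatten)
    (hX : ∀ l ∈ P, ∀ l' ∈ P, ∃ t, (∀ v ∈ l, v ∉ X t) ∧ ∀ v ∈ l', v ∉ X t) :
    Lemmas D x X (2 * P.length) := by
  have hne : P ≠ [] := by
    rintro rfl
    exact Lists_ne_nil hP rfl
  have hlen : 1 ≤ P.length := List.length_pos_of_ne_nil hne
  have hG : Lists_Good X P := hX
  obtain ⟨t, h1, h2⟩ := hG _ (List.head_mem hne) _ (List.getLast_mem hne)
  obtain ⟨A, hA, hA', hA''⟩ := Lists_main hP P rfl hG t
    (fun l hl => by
      rw [List.head?_eq_some_head hne, Option.mem_some_iff] at hl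
      rwa [← hl])
    (fun l hl => by
      rw [List.getLast?_eq_some_getLast hne, Option.mem_some_iff] at hl
      rwa [← hl])
  have hC : Lists_Ch D x X ((t, D.out) :: A) := ⟨hA'', hA'⟩
  have hC2 := Lists_pad hC (q := (t, D.out)) List.mem_cons_self (2 * P.length - (A.length + 1))
  set B := List.replicate (2 * P.length - (A.length + 1)) (t, D.out) ++ (t, D.out) :: A with hB
  have hBl : B.length = 2 * P.length := by
    rw [hB, List.length_append, List.length_replicate, List.length_cons]
    omega
  have hget := hC2.get
  refine ⟨fun i => (B[2 * P.length - 1 - (i : ℕ)]'(by omega)).1,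
    fun i => (B[2 * P.length - 1 - (i : ℕ)]'(by omega)).2, fun i => ?_, ?_⟩
  · refine (hget (2 * P.length - 1 - (i : ℕ)) (by omega)).mono ?_
    rintro h ⟨b, hb, h3, h4⟩
    have hi := i.2
    refine ⟨⟨2 * P.length - 1 - b, by omega⟩, ?_, ?_⟩
    · rw [Fin.lt_def]
      simp only
      omega
    · simp only
      rw [← h4]
      congr 2
      omega
  · have hm : (t, D.out) ∈ B := by
      rw [hB]
      exact List.mem_append_right _ List.mem_cons_self
    obtain ⟨b, hb, h3⟩ := List.mem_iff_getElem.1 hm
    refine ⟨⟨2 * P.length - 1 - b, by omega⟩, ?_⟩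
    simp only
    have h4 : 2 * P.length - 1 - (2 * P.length - 1 - b) = b := by omega
    simp only [h4, h3]

end Pool.Agent.RK
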