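import Mathlib
import Pool.Agent.Lib.MP_0a1b52_lc_RK.Emb

/-!
# Local proofs that a graph has no large clique
-/

set_option autoImplicit false

namespace Pool.Agent.RK

open Finset Pool.Agent.FP

/-- Let `p 0, ..., p (s - 1)` be functions of a graph with `n` vertices (for instance the gates of
a circuit) and let `X 0, ..., X (K - 1)` be sets of variables.  A local proof with `r` lines that
the graph `x` has no clique with more than `√n` vertices: the line `i` says that the function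
`p (g i)` has the value `b i`, and the last statement says that there is no such clique; for each
line there is a `k` such that the line holds for all graphs `y` which agree with `x` outside `X k`
and for which the lines before hold, and there is a `k` such that the last statement holds for all
graphs `y` which agree with `x` outside `X k` and for which all lines hold. -/
def LocalProof {n s K : ℕ} (p : Fin s → (EdgeVar n → Bool) → Bool)
    (X : Fin K → Finset (EdgeVar n)) (x : EdgeVar n → Bool) (r : ℕ) : Prop :=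
  ∃ (g : Fin r → Fin s) (b : Fin r → Bool),
    (∀ i, ∃ k, ∀ y : EdgeVar n → Bool, (∀ v, v ∉ X k → y v = x v) →
      (∀ j, j < i → p (g j) y = b j) → p (g i) y = b i) ∧
    ∃ k, ∀ y : EdgeVar n → Bool, (∀ v, v ∉ X k → y v = x v) →
      (∀ j, p (g j) y = b j) → ¬ Clq y

open Classical in
/-- few star-closed sets of rejected graphs cover all graphs which have a local proof -/
theorem local_cover {n s K : ℕ} (p : Fin s → (EdgeVar n → Bool) → Bool)
    (X : Fin K → Finset (EdgeVar n)) (r : ℕ) :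
    ∃ (M : ℕ) (T : Fin M → (EdgeVar n → Bool) → Prop), M = (K * (s * 2)) ^ r * K ∧
      (∀ θ, StarK X (T θ)) ∧ (∀ θ x, T θ x → ¬ Clq x) ∧
      ∀ x, LocalProof p X x r → ∃ θ, T θ x := by
  let Θ : Type := (Fin r → Fin K × (Fin s × Bool)) × Fin K
  let T : Θ → (EdgeVar n → Bool) → Prop := fun P x =>
    (∀ i, ∀ y : EdgeVar n → Bool, (∀ v, v ∉ X (P.1 i).1 → y v = x v) →
      (∀ j, j < i → p (P.1 j).2.1 y = (P.1 j).2.2) → p (P.1 i).2.1 y = (P.1 i).2.2) ∧
    ∀ y : EdgeVar n → Bool, (∀ v, v ∉ X P.2 → y v = x v) →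
      (∀ j, p (P.1 j).2.1 y = (P.1 j).2.2) → ¬ Clq y
  refine ⟨Fintype.card Θ, fun θ => T ((Fintype.equivFin Θ).symm θ), ?_, ?_, ?_, ?_⟩
  · rw [Fintype.card_prod, Fintype.card_fun, Fintype.card_prod, Fintype.card_prod,
      Fintype.card_fin, Fintype.card_fin, Fintype.card_fin, Fintype.card_bool]
  · intro θ u v huv hv
    exact ⟨fun i y hy => (hv _).1 i y fun e he => (hy e he).trans (huv _ e he).symm,
      fun y hy => (hv _).2 y fun e he => (hy e he).trans (huv _ e he).symm⟩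
  · intro θ x h
    set P := (Fintype.equivFin Θ).symm θ with hP
    have key : ∀ m : ℕ, ∀ i : Fin r, (i : ℕ) = m → p (P.1 i).2.1 x = (P.1 i).2.2 := by
      intro m
      induction m using Nat.strong_induction_on with
      | _ m ih =>
        rintro i rfl
        exact h.1 i x (fun _ _ => rfl) fun j hj => ih (j : ℕ) hj j rfl
    exact h.2 x (fun _ _ => rfl) fun j => key _ j rfl
  · rintro x ⟨g, b, h1, k, h2⟩
    choose κ hκ using h1
    refine ⟨Fintype.equivFin Θ (fun i => (κ i, (g i, b i)), k), ?_⟩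
    simp only [T, Equiv.symm_apply_apply]
    exact ⟨hκ, h2⟩

/-- the number of choices -/
theorem local_arith {M s r n f : ℕ} {ε ε' : ℝ} (hn : 1 ≤ n) (hε1 : ε ≤ 2)
    (hlf : Real.logb 2 f ≤ (n : ℝ) ^ (2 - ε)) (hf : 1 ≤ f)
    (hrs : r * Real.logb 2 (s + 1) ≤ (n : ℝ) ^ (2 - ε))
    (hbig : (3 * (M + 1) + 3 : ℝ) * (n : ℝ) ^ (2 - ε) ≤ (n : ℝ) ^ (2 - ε')) :
    ((f ^ (M + 1) : ℕ) : ℝ) * ((((M + 1) * (s * 2)) ^ r * (M + 1) : ℕ) *
      (2 : ℝ) ^ (-((n : ℝ) ^ (2 - ε')))) ≤ (2 : ℝ) ^ (-((n : ℝ) ^ (2 - ε))) := by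
  have hs0 : (0 : ℝ) < (s : ℝ) + 1 := by positivity
  have hf0 : (0 : ℝ) < f := by
    have : (1 : ℝ) ≤ f := by exact_mod_cast hf
    linarith
  have hn1 : (1 : ℝ) ≤ (n : ℝ) ^ (2 - ε) :=
    Real.one_le_rpow (by exact_mod_cast hn) (by linarith)
  have h1 : ((f ^ (M + 1) : ℕ) : ℝ) ≤ (2 : ℝ) ^ ((M + 1) * (n : ℝ) ^ (2 - ε)) := by
    push_cast
    have h2 : (f : ℝ) = (2 : ℝ) ^ Real.logb 2 f :=
      (Real.rpow_logb (by norm_num) (by norm_num) hf0).symm
    have h3 : (f : ℝ) ^ (M + 1) = (2 : ℝ) ^ (Real.logb 2 f * ((M + 1 : ℕ) : ℝ)) := by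
      rw [Real.rpow_mul_natCast (by norm_num), ← h2]
    rw [h3]
    refine Real.rpow_le_rpow_of_exponent_le (by norm_num) ?_
    push_cast
    rw [mul_comm]
    exact mul_le_mul_of_nonneg_left hlf (by positivity)
  have hM : ((M : ℝ) + 1) ≤ (2 : ℝ) ^ ((M : ℝ) + 1) := by
    have h7 : (M + 1 : ℕ) ≤ 2 ^ (M + 1) := Nat.lt_two_pow_self.le
    calc ((M : ℝ) + 1) ≤ (2 : ℝ) ^ (M + 1) := by exact_mod_cast h7
      _ = (2 : ℝ) ^ ((M + 1 : ℕ) : ℝ) := (Real.rpow_natCast _ _).symm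
      _ = _ := by push_cast; rfl
  have h4 : ((((M + 1) * (s * 2)) ^ r : ℕ) : ℝ) ≤ (2 : ℝ) ^ ((M + 3) * (n : ℝ) ^ (2 - ε)) := by
    push_cast
    rcases Nat.eq_zero_or_pos s with hs | hs
    · subst hs
      rcases Nat.eq_zero_or_pos r with hr | hr
      · subst hr
        rw [pow_zero]
        exact Real.one_le_rpow (by norm_num) (by positivity)
      · rw [Nat.cast_zero, zero_mul, mul_zero, zero_pow hr.ne']
        positivity
    have hlog : 1 ≤ Real.logb 2 (s + 1) := by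
      rw [Real.le_logb_iff_rpow_le (by norm_num) hs0, Real.rpow_one]
      have : (1 : ℝ) ≤ s := by exact_mod_cast hs
      linarith
    have h5 : ((M : ℝ) + 1) * (s * 2) ≤ (2 : ℝ) ^ ((M + 3) * Real.logb 2 (s + 1)) := by
      have h6 : ((M : ℝ) + 1) * 2 ≤ (2 : ℝ) ^ ((M + 2) * Real.logb 2 (s + 1)) := by
        calc ((M : ℝ) + 1) * 2 ≤ (2 : ℝ) ^ ((M : ℝ) + 1) * 2 :=
              mul_le_mul_of_nonneg_right hM (by norm_num)
          _ = (2 : ℝ) ^ ((M : ℝ) + 2) := by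
              rw [show (M : ℝ) + 2 = ((M : ℝ) + 1) + 1 by ring,
                Real.rpow_add (by norm_num) ((M : ℝ) + 1) 1, Real.rpow_one]
          _ ≤ _ := by
            refine Real.rpow_le_rpow_of_exponent_le (by norm_num) ?_
            have h8 : (0 : ℝ) ≤ (M : ℝ) + 2 := by positivity
            nlinarith
      calc ((M : ℝ) + 1) * (s * 2) = (((M : ℝ) + 1) * 2) * s := by ring
        _ ≤ (2 : ℝ) ^ ((M + 2) * Real.logb 2 (s + 1)) * (s + 1) :=
            mul_le_mul h6 (by linarith) (by positivity) (by positivity)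
        _ = (2 : ℝ) ^ ((M + 2) * Real.logb 2 (s + 1)) * (2 : ℝ) ^ Real.logb 2 (s + 1) := by
            rw [Real.rpow_logb (by norm_num) (by norm_num) hs0]
        _ = _ := by
            rw [← Real.rpow_add (by norm_num)]
            congr 1
            ring
    calc (((M : ℝ) + 1) * (s * 2)) ^ r ≤ ((2 : ℝ) ^ ((M + 3) * Real.logb 2 (s + 1))) ^ r :=
          pow_le_pow_left₀ (by positivity) h5 r
      _ = (2 : ℝ) ^ ((M + 3) * Real.logb 2 (s + 1) * r) := by
          rw [Real.rpow_mul_natCast (by norm_num)]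
      _ ≤ _ := by
          refine Real.rpow_le_rpow_of_exponent_le (by norm_num) ?_
          have h8 : (0 : ℝ) ≤ (M : ℝ) + 3 := by positivity
          calc (M + 3) * Real.logb 2 (s + 1) * r = (M + 3) * (r * Real.logb 2 (s + 1)) := by ring
            _ ≤ _ := mul_le_mul_of_nonneg_left hrs h8
  have h9 : ((M : ℝ) + 1) ≤ (2 : ℝ) ^ ((M + 1) * (n : ℝ) ^ (2 - ε)) := by
    refine hM.trans (Real.rpow_le_rpow_of_exponent_le (by norm_num) ?_)
    have h8 : (0 : ℝ) ≤ (M : ℝ) + 1 := by positivity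
    nlinarith
  have h10 : ((((M + 1) * (s * 2)) ^ r * (M + 1) : ℕ) : ℝ) ≤
      (2 : ℝ) ^ ((M + 3) * (n : ℝ) ^ (2 - ε)) * (2 : ℝ) ^ ((M + 1) * (n : ℝ) ^ (2 - ε)) := by
    rw [Nat.cast_mul]
    refine mul_le_mul h4 ?_ (by positivity) (by positivity)
    push_cast
    exact h9
  calc ((f ^ (M + 1) : ℕ) : ℝ) * ((((M + 1) * (s * 2)) ^ r * (M + 1) : ℕ) *
      (2 : ℝ) ^ (-((n : ℝ) ^ (2 - ε')))) ≤
      (2 : ℝ) ^ ((M + 1) * (n : ℝ) ^ (2 - ε)) * (((2 : ℝ) ^ ((M + 3) * (n : ℝ) ^ (2 - ε)) *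
        (2 : ℝ) ^ ((M + 1) * (n : ℝ) ^ (2 - ε))) * (2 : ℝ) ^ (-((n : ℝ) ^ (2 - ε')))) := by
        refine mul_le_mul h1 (mul_le_mul_of_nonneg_right h10 (by positivity)) (by positivity)
          (by positivity)
    _ = (2 : ℝ) ^ ((M + 1) * (n : ℝ) ^ (2 - ε) + (((M + 3) * (n : ℝ) ^ (2 - ε) +
        (M + 1) * (n : ℝ) ^ (2 - ε)) + -((n : ℝ) ^ (2 - ε')))) := by
        rw [← Real.rpow_add (by norm_num), ← Real.rpow_add (by norm_num),
          ← Real.rpow_add (by norm_num)]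
    _ ≤ _ := by
        refine Real.rpow_le_rpow_of_exponent_le (by norm_num) ?_
        have h11 : (3 * (M + 1) + 3 : ℝ) * (n : ℝ) ^ (2 - ε) =
          (M + 1) * (n : ℝ) ^ (2 - ε) + (((M + 3) * (n : ℝ) ^ (2 - ε) +
          (M + 1) * (n : ℝ) ^ (2 - ε)) + (n : ℝ) ^ (2 - ε)) := by
          ring
        linarith

open Classical in
/-- For all `K` and `ε > 0` there are `δ > 0` and `n₀` such that for all `n ≥ n₀` there are graphs
`Q 1, ..., Q N` with `n` vertices and without a clique of more than `√n` vertices such that for each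
family `F` of at most `2 ^ (n ^ (2 - ε))` sets of at least `n ^ (2 - δ)` variables and for any
functions `p 1, ..., p s` of a graph: if `r log₂ (s + 1) ≤ n ^ (2 - ε)`, then for at most
`N 2 ^ (- n ^ (2 - ε))` of the graphs `Q i` there are `X 1, ..., X K` in `F` and a local proof with
`r` lines that `Q i` has no clique of more than `√n` vertices. -/
theorem local_main (K : ℕ) (ε : ℝ) (hε : 0 < ε) : ∃ δ : ℝ, 0 < δ ∧ ∃ n₀ : ℕ, ∀ n ≥ n₀,
    ∃ (N : ℕ) (Q : Fin N → EdgeVar n → Bool), 0 < N ∧ (∀ i, ¬ Clq (Q i)) ∧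
      ∀ F : Finset (Finset (EdgeVar n)), (∀ B ∈ F, (n : ℝ) ^ (2 - δ) ≤ (B.card : ℝ)) →
      Real.logb 2 F.card ≤ (n : ℝ) ^ (2 - ε) →
      ∀ (s r : ℕ) (p : Fin s → (EdgeVar n → Bool) → Bool),
        r * Real.logb 2 (s + 1) ≤ (n : ℝ) ^ (2 - ε) →
        ((univ.filter fun i => ∃ X : Fin K → Finset (EdgeVar n), (∀ k, X k ∈ F) ∧
          LocalProof p X (Q i) r).card : ℝ) ≤ N * (2 : ℝ) ^ (-((n : ℝ) ^ (2 - ε))) := by
  -- it suffices to have `ε ≤ 1`
  wlog hε1 : ε ≤ 1 generalizing ε with H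
  · obtain ⟨δ, hδ, n₀, hn₀⟩ := H 1 one_pos le_rfl
    refine ⟨δ, hδ, max n₀ 1, fun n hn => ?_⟩
    obtain ⟨N, Q, hN, hQ, hE⟩ := hn₀ n (le_trans (le_max_left _ _) hn)
    have hn1 : (1 : ℝ) ≤ n := by exact_mod_cast le_trans (le_max_right _ _) hn
    have hle : (n : ℝ) ^ (2 - ε) ≤ (n : ℝ) ^ (2 - (1 : ℝ)) :=
      Real.rpow_le_rpow_of_exponent_le hn1 (by linarith [not_le.1 hε1])
    refine ⟨N, Q, hN, hQ, fun F hF1 hF2 s r p hrs => ?_⟩
    refine (hE F hF1 (hF2.trans hle) s r p (hrs.trans hle)).trans ?_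
    refine mul_le_mul_of_nonneg_left ?_ (Nat.cast_nonneg _)
    exact Real.rpow_le_rpow_of_exponent_le (by norm_num) (neg_le_neg hle)
  rcases Nat.eq_zero_or_pos K with hK | hK
  · -- no set
    subst hK
    obtain ⟨δ, n₀, hδ, hE⟩ := embed 0 ε hε
    refine ⟨δ, hδ, n₀, fun n hn => ?_⟩
    obtain ⟨N, Q, hN, hQ, -⟩ := hE n hn
    refine ⟨N, Q, hN, hQ, fun F _ _ s r p _ => ?_⟩
    have h0 : (univ.filter fun i => ∃ X : Fin 0 → Finset (EdgeVar n), (∀ k, X k ∈ F) ∧
        LocalProof p X (Q i) r) = ∅ := by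
      rw [filter_eq_empty_iff]
      rintro i - ⟨X, -, g, b, -, ⟨k, -⟩⟩
      exact k.elim0
    rw [h0, card_empty, Nat.cast_zero]
    positivity
  obtain ⟨M, rfl⟩ : ∃ M, K = M + 1 := ⟨K - 1, by omega⟩
  have hε' : 0 < ε / 2 := by positivity
  obtain ⟨δ, n₁, hδ, hE⟩ := embed M (ε / 2) hε'
  have hlim : Filter.Tendsto (fun n : ℕ => (n : ℝ) ^ (ε / 2)) Filter.atTop Filter.atTop :=
    (tendsto_rpow_atTop (by positivity)).comp tendsto_natCast_atTop_atTop
  obtain ⟨n₃, h₃⟩ := Filter.eventually_atTop.1 (hlim.eventually_ge_atTop (3 * (M + 1) + 3 : ℝ))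
  refine ⟨δ, hδ, max n₁ (max n₃ 1), fun n hn => ?_⟩
  have hn1 : n₁ ≤ n := le_trans (le_max_left _ _) hn
  have hn3 : n₃ ≤ n := le_trans (le_trans (le_max_left _ _) (le_max_right _ _)) hn
  have hn4 : 1 ≤ n := le_trans (le_trans (le_max_right _ _) (le_max_right _ _)) hn
  have hnR : (1 : ℝ) ≤ n := by exact_mod_cast hn4
  have hn0 : (0 : ℝ) < n := by linarith
  obtain ⟨N, Q, hN, hQ, hE⟩ := hE n hn1
  refine ⟨N, Q, hN, hQ, fun F hF1 hF2 s r p hrs => ?_⟩
  rcases Finset.eq_empty_or_nonempty F with hF0 | hF0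
  · have h0 : (univ.filter fun i => ∃ X : Fin (M + 1) → Finset (EdgeVar n), (∀ k, X k ∈ F) ∧
        LocalProof p X (Q i) r) = ∅ := by
      rw [filter_eq_empty_iff]
      rintro i - ⟨X, hX, -⟩
      have := hX 0
      rw [hF0] at this
      exact absurd this (Finset.notMem_empty _)
    rw [h0, card_empty, Nat.cast_zero]
    positivity
  have hbig : (3 * (M + 1) + 3 : ℝ) * (n : ℝ) ^ (2 - ε) ≤ (n : ℝ) ^ (2 - ε / 2) := by
    have h8 := h₃ n hn3
    have e1 : (n : ℝ) ^ (2 - ε / 2) = (n : ℝ) ^ (ε / 2) * (n : ℝ) ^ (2 - ε) := by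
      rw [← Real.rpow_add hn0]
      congr 1
      ring
    rw [e1]
    exact mul_le_mul_of_nonneg_right h8 (by positivity)
  set a : ℝ := N * (2 : ℝ) ^ (-((n : ℝ) ^ (2 - ε / 2))) with ha
  set m : ℕ := ((M + 1) * (s * 2)) ^ r * (M + 1) with hm
  have hX : ∀ X ∈ Fintype.piFinset (fun _ : Fin (M + 1) => F),
      ((univ.filter fun i => LocalProof p X (Q i) r).card : ℝ) ≤ m * a := by
    intro X hX
    rw [Fintype.mem_piFinset] at hX
    obtain ⟨m', T, hm', hT1, hT2, hT3⟩ := local_cover p X r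
    have hθ : ∀ θ, ((univ.filter fun i => T θ (Q i)).card : ℝ) ≤ a := fun θ =>
      hE X (fun t => hF1 _ (hX t)) (T θ) (hT1 θ) fun x hx => hT2 θ x hx
    have hsub : (univ.filter fun i => LocalProof p X (Q i) r) ⊆
        univ.biUnion fun θ : Fin m' => univ.filter fun i => T θ (Q i) := by
      intro i hi
      obtain ⟨θ, hθ⟩ := hT3 (Q i) (mem_filter.1 hi).2
      exact mem_biUnion.2 ⟨θ, mem_univ _, mem_filter.2 ⟨mem_univ _, hθ⟩⟩
    have h9 := (card_le_card hsub).trans (card_biUnion_le (s := univ)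
      (t := fun θ : Fin m' => univ.filter fun i => T θ (Q i)))
    have h10 : ((univ.filter fun i => LocalProof p X (Q i) r).card : ℝ) ≤
        ∑ θ : Fin m', ((univ.filter fun i => T θ (Q i)).card : ℝ) := by exact_mod_cast h9
    refine h10.trans ((sum_le_sum fun θ _ => hθ θ).trans (le_of_eq ?_))
    rw [sum_const, card_univ, Fintype.card_fin, nsmul_eq_mul, hm']
  have hsub : (univ.filter fun i => ∃ X : Fin (M + 1) → Finset (EdgeVar n), (∀ k, X k ∈ F) ∧
      LocalProof p X (Q i) r) ⊆ (Fintype.piFinset (fun _ : Fin (M + 1) => F)).biUnion fun X =>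
        univ.filter fun i => LocalProof p X (Q i) r := by
    intro i hi
    obtain ⟨X, hX1, hX2⟩ := (mem_filter.1 hi).2
    exact mem_biUnion.2 ⟨X, Fintype.mem_piFinset.2 hX1, mem_filter.2 ⟨mem_univ _, hX2⟩⟩
  have h9 := (card_le_card hsub).trans (card_biUnion_le
    (s := Fintype.piFinset (fun _ : Fin (M + 1) => F))
    (t := fun X => univ.filter fun i => LocalProof p X (Q i) r))
  have h10 : ((univ.filter fun i => ∃ X : Fin (M + 1) → Finset (EdgeVar n), (∀ k, X k ∈ F) ∧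
      LocalProof p X (Q i) r).card : ℝ) ≤ ∑ X ∈ Fintype.piFinset (fun _ : Fin (M + 1) => F),
        ((univ.filter fun i => LocalProof p X (Q i) r).card : ℝ) := by exact_mod_cast h9
  have h11 : ((univ.filter fun i => ∃ X : Fin (M + 1) → Finset (EdgeVar n), (∀ k, X k ∈ F) ∧
      LocalProof p X (Q i) r).card : ℝ) ≤ ((F.card ^ (M + 1) : ℕ) : ℝ) * (m * a) := by
    refine h10.trans ((sum_le_sum hX).trans (le_of_eq ?_))
    rw [sum_const, Fintype.card_piFinset, prod_const, card_univ, Fintype.card_fin, nsmul_eq_mul]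
  have h12 := local_arith (M := M) (s := s) (r := r) (n := n) (f := F.card) (ε := ε)
    (ε' := ε / 2) hn4 (by linarith) hF2 (Finset.card_pos.2 hF0) hrs hbig
  calc _ ≤ ((F.card ^ (M + 1) : ℕ) : ℝ) * (m * a) := h11
    _ = N * (((F.card ^ (M + 1) : ℕ) : ℝ) * ((m : ℕ) *
        (2 : ℝ) ^ (-((n : ℝ) ^ (2 - ε / 2))))) := by
        rw [ha]
        ring
    _ ≤ N * (2 : ℝ) ^ (-((n : ℝ) ^ (2 - ε))) := mul_le_mul_of_nonneg_left h12 (Nat.cast_nonneg _)

end Pool.Agent.RK
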