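import Mathlib
import Pool.Agent.Lib.MP_0a1b52_lc_RK.Cov

/-!
# Refutations with few lemmas: the lemmas are arbitrary functions

`Sem`: refutations whose lemmas are taken from a list of arbitrary functions; few star-closed sets
cover the inputs which have such a refutation (`coverS`); refutations by the gates of a circuit are
of this kind (`Lemmas.sem`).
-/

set_option autoImplicit false

namespace Pool.Agent.RK

open Finset Pool.Agent.FP

/-- `Sem G o x X r`: the input `x` has a refutation with `r` lemmas which shows that `G o` has the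
value `0` on `x`: a list of `r` of the functions `G 0, ..., G (s - 1)`, among them `G o`, such that
for each function of the list there is a `k` with: the function has the value `0` on all inputs
which agree with `x` outside `X k` and on which the previous functions of the list have the
value `0`. -/
def Sem {V : Type} {s K : ℕ} (G : Fin s → (V → Bool) → Bool) (o : Fin s) (x : V → Bool)
    (X : Fin K → Finset V) (r : ℕ) : Prop :=
  ∃ (k : Fin r → Fin K) (g : Fin r → Fin s),
    (∀ i, ∀ y : V → Bool, (∀ v, v ∉ X (k i) → y v = x v) → (∀ j, j < i → G (g j) y = false) →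
      G (g i) y = false) ∧ ∃ i, g i = o

/-- few star-closed sets of inputs with `G o = 0` cover all inputs which have a refutation with `r`
lemmas -/
theorem coverS {V : Type} {s K : ℕ} (hK : 0 < K) (G : Fin s → (V → Bool) → Bool) (o : Fin s)
    (X : Fin K → Finset V) (r : ℕ) : ∃ (M : ℕ) (T : Fin M → (V → Bool) → Prop),
      M = (K * s) ^ r ∧ (∀ θ, StarK X (T θ)) ∧ (∀ θ x, T θ x → G o x = false) ∧
      ∀ x, Sem G o x X r → ∃ θ, T θ x := by
  classical
  let Θ : Type := Fin r → Fin K × Fin s
  let T : Θ → (V → Bool) → Prop := fun P x =>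
    (∀ i, ∀ y : V → Bool, (∀ v, v ∉ X (P i).1 → y v = x v) →
      (∀ j, j < i → G (P j).2 y = false) → G (P i).2 y = false) ∧ ∃ i, (P i).2 = o
  refine ⟨Fintype.card Θ, fun θ => T ((Fintype.equivFin Θ).symm θ), ?_, ?_, ?_, ?_⟩
  · rw [Fintype.card_fun, Fintype.card_prod, Fintype.card_fin, Fintype.card_fin,
      Fintype.card_fin]
  · intro θ u v huv hv
    refine ⟨fun i y hy h => (hv ((Fintype.equivFin Θ).symm θ i).1).1 i y (fun e he => ?_) h,
      (hv ⟨0, hK⟩).2⟩
    rw [hy e he, huv _ e he]
  · intro θ x h
    set P := (Fintype.equivFin Θ).symm θ with hP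
    have key : ∀ m : ℕ, ∀ i : Fin r, (i : ℕ) = m → G (P i).2 x = false := by
      intro m
      induction m using Nat.strong_induction_on with
      | _ m ih =>
        rintro i rfl
        exact h.1 i x (fun _ _ => rfl) fun j hj => ih (j : ℕ) hj j rfl
    obtain ⟨i, hi⟩ := h.2
    rw [← hi]
    exact key _ i rfl
  · rintro x ⟨k, g, h1, h2⟩
    refine ⟨Fintype.equivFin Θ fun i => (k i, g i), ?_⟩
    simp only [T, Equiv.symm_apply_apply]
    exact ⟨h1, h2⟩

open Classical in
/-- the functions of the gates of a circuit -/
noncomputable def gateFun {V : Type} {s : ℕ} (D : Circuit V s) (g : Fin s) (y : V → Bool) : Bool :=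
  decide (∃ val, D.IsEval y val ∧ val g = true)

theorem gateFun_out {V : Type} {s : ℕ} {D : Circuit V s} {x : V → Bool} (h : D.Accepts x) :
    gateFun D D.out x = true := by
  classical
  exact decide_eq_true h

/-- refutations by the gates of a circuit -/
theorem Lemmas.sem {V : Type} {s K : ℕ} {D : Circuit V s} {x : V → Bool} {X : Fin K → Finset V}
    {r : ℕ} (h : Lemmas D x X r) : Sem (gateFun D) D.out x X r := by
  obtain ⟨k, g, h1, h2⟩ := h
  refine ⟨k, g, fun i y hy hj => ?_, h2⟩
  rw [gateFun, decide_eq_false_iff_not]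
  rintro ⟨val, hval, hg⟩
  have h3 := ((h1 i).congr (y := y) fun v hv => (hy v hv).symm).sound hval (by
    rintro _ ⟨j, hji, rfl⟩
    have h4 := hj j hji
    rw [gateFun, decide_eq_false_iff_not] at h4
    by_contra h5
    exact h4 ⟨val, hval, by simpa using h5⟩)
  rw [hg] at h3
  exact absurd h3 (by simp)

end Pool.Agent.RK
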