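import Mathlib
import Pool.Agent.Lib.MP_0a1b52_lc_RK.Sem
import Pool.Agent.Lib.MP_0a1b52_lc_RK.Emb

/-!
# Refutations with few lemmas: the theorem for arbitrary functions
-/

set_option autoImplicit false

namespace Pool.Agent.RK

open Finset Pool.Agent.FP

open Classical in
/-- one choice of the `K` sets -/
private theorem mainS_sets {n N M s r : ℕ} (a : ℝ) (Q : Fin N → EdgeVar n → Bool)
    (X : Fin (M + 1) → Finset (EdgeVar n)) (G : Fin s → (EdgeVar n → Bool) → Bool) (o : Fin s)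
    (hD : ∀ x, Clq x → G o x = true)
    (hQ : ∀ T : (EdgeVar n → Bool) → Prop, StarK X T → (∀ x, T x → ¬ Clq x) →
      ((univ.filter fun i => T (Q i)).card : ℝ) ≤ a) :
    ((univ.filter fun i => Sem G o (Q i) X r).card : ℝ) ≤ (((M + 1) * s) ^ r : ℕ) * a := by
  obtain ⟨m, T, hm, hT1, hT2, hT3⟩ := coverS (Nat.succ_pos M) G o X r
  have hθ : ∀ θ, ((univ.filter fun i => T θ (Q i)).card : ℝ) ≤ a := fun θ =>
    hQ (T θ) (hT1 θ) fun x hx hx' => by
      have h1 := hT2 θ x hx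
      rw [hD x hx'] at h1
      exact absurd h1 (by simp)
  have hsub : (univ.filter fun i => Sem G o (Q i) X r) ⊆
      univ.biUnion fun θ : Fin m => univ.filter fun i => T θ (Q i) := by
    intro i hi
    obtain ⟨θ, hθ⟩ := hT3 (Q i) (mem_filter.1 hi).2
    exact mem_biUnion.2 ⟨θ, mem_univ _, mem_filter.2 ⟨mem_univ _, hθ⟩⟩
  have h9 := (card_le_card hsub).trans (card_biUnion_le (s := univ)
    (t := fun θ : Fin m => univ.filter fun i => T θ (Q i)))
  have h10 : ((univ.filter fun i => Sem G o (Q i) X r).card : ℝ) ≤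
      ∑ θ : Fin m, ((univ.filter fun i => T θ (Q i)).card : ℝ) := by exact_mod_cast h9
  refine h10.trans ((sum_le_sum fun θ _ => hθ θ).trans (le_of_eq ?_))
  rw [sum_const, card_univ, Fintype.card_fin, nsmul_eq_mul, hm]

/-- the number of choices -/
private theorem mainS_arith {M s r n f : ℕ} {ε ε' : ℝ} (hs : 2 ≤ s) (hf : 1 ≤ f)
    (hlf : Real.logb 2 f ≤ (n : ℝ) ^ (2 - ε)) (hrs : r * Real.logb 2 s ≤ (n : ℝ) ^ (2 - ε))
    (hbig : (2 * (M + 1) + 2 : ℝ) * (n : ℝ) ^ (2 - ε) ≤ (n : ℝ) ^ (2 - ε')) :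
    ((f ^ (M + 1) : ℕ) : ℝ) * ((((M + 1) * s) ^ r : ℕ) * (2 : ℝ) ^ (-((n : ℝ) ^ (2 - ε')))) ≤
      (2 : ℝ) ^ (-((n : ℝ) ^ (2 - ε))) := by
  have hs0 : (0 : ℝ) < s := by
    have : (2 : ℝ) ≤ s := by exact_mod_cast hs
    linarith
  have hf0 : (0 : ℝ) < f := by
    have : (1 : ℝ) ≤ f := by exact_mod_cast hf
    linarith
  have hlog : 1 ≤ Real.logb 2 s := by
    rw [Real.le_logb_iff_rpow_le (by norm_num) hs0, Real.rpow_one]
    exact_mod_cast hs
  have h1 : ((f ^ (M + 1) : ℕ) : ℝ) ≤ (2 : ℝ) ^ ((M + 1) * (n : ℝ) ^ (2 - ε)) := by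
    push_cast
    have h2 : (f : ℝ) = (2 : ℝ) ^ Real.logb 2 f :=
      (Real.rpow_logb (by norm_num) (by norm_num) hf0).symm
    have h3 : (f : ℝ) ^ (M + 1) = (2 : ℝ) ^ (Real.logb 2 f * ((M + 1 : ℕ) : ℝ)) := by
      rw [Real.rpow_mul_natCast (by norm_num), ← h2]
    rw [h3]
    refine Real.rpow_le_rpow_of_exponent_le (by norm_num) ?_
    push_cast
    rw [mul_comm]
    exact mul_le_mul_of_nonneg_left hlf (by positivity)
  have h4 : ((((M + 1) * s) ^ r : ℕ) : ℝ) ≤ (2 : ℝ) ^ ((M + 2) * (n : ℝ) ^ (2 - ε)) := by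
    push_cast
    have h5 : ((M : ℝ) + 1) * s ≤ (2 : ℝ) ^ ((M + 2) * Real.logb 2 s) := by
      have h6 : ((M : ℝ) + 1) ≤ (2 : ℝ) ^ ((M + 1) * Real.logb 2 s) := by
        have h7 : (M + 1 : ℕ) ≤ 2 ^ (M + 1) := Nat.lt_two_pow_self.le
        calc ((M : ℝ) + 1) ≤ (2 : ℝ) ^ (M + 1) := by exact_mod_cast h7
          _ = (2 : ℝ) ^ ((M + 1 : ℕ) : ℝ) := (Real.rpow_natCast _ _).symm
          _ ≤ _ := by
            refine Real.rpow_le_rpow_of_exponent_le (by norm_num) ?_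
            push_cast
            nlinarith
      calc ((M : ℝ) + 1) * s ≤ (2 : ℝ) ^ ((M + 1) * Real.logb 2 s) * s :=
            mul_le_mul_of_nonneg_right h6 hs0.le
        _ = (2 : ℝ) ^ ((M + 1) * Real.logb 2 s) * (2 : ℝ) ^ Real.logb 2 s := by
            rw [Real.rpow_logb (by norm_num) (by norm_num) hs0]
        _ = _ := by
            rw [← Real.rpow_add (by norm_num)]
            congr 1
            ring
    calc (((M : ℝ) + 1) * s) ^ r ≤ ((2 : ℝ) ^ ((M + 2) * Real.logb 2 s)) ^ r :=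
          pow_le_pow_left₀ (by positivity) h5 r
      _ = (2 : ℝ) ^ ((M + 2) * Real.logb 2 s * r) := by
          rw [Real.rpow_mul_natCast (by norm_num)]
      _ ≤ _ := by
          refine Real.rpow_le_rpow_of_exponent_le (by norm_num) ?_
          have h8 : (0 : ℝ) ≤ (M : ℝ) + 2 := by positivity
          calc (M + 2) * Real.logb 2 s * r = (M + 2) * (r * Real.logb 2 s) := by ring
            _ ≤ _ := mul_le_mul_of_nonneg_left hrs h8
  calc ((f ^ (M + 1) : ℕ) : ℝ) * ((((M + 1) * s) ^ r : ℕ) * (2 : ℝ) ^ (-((n : ℝ) ^ (2 - ε')))) ≤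
      (2 : ℝ) ^ ((M + 1) * (n : ℝ) ^ (2 - ε)) * ((2 : ℝ) ^ ((M + 2) * (n : ℝ) ^ (2 - ε)) *
        (2 : ℝ) ^ (-((n : ℝ) ^ (2 - ε')))) := by
        refine mul_le_mul h1 (mul_le_mul_of_nonneg_right h4 (by positivity)) (by positivity)
          (by positivity)
    _ = (2 : ℝ) ^ ((M + 1) * (n : ℝ) ^ (2 - ε) + ((M + 2) * (n : ℝ) ^ (2 - ε) +
        -((n : ℝ) ^ (2 - ε')))) := by
        rw [Real.rpow_add (by norm_num), Real.rpow_add (by norm_num)]
    _ ≤ _ := by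
        refine Real.rpow_le_rpow_of_exponent_le (by norm_num) ?_
        have h9 : (2 * (M + 1) + 2 : ℝ) * (n : ℝ) ^ (2 - ε) =
          (M + 1) * (n : ℝ) ^ (2 - ε) + ((M + 2) * (n : ℝ) ^ (2 - ε) + (n : ℝ) ^ (2 - ε)) := by
          ring
        linarith

open Classical in
/-- For all `ε > 0` and `K` there are `δ > 0` and `n₀` such that for `n ≥ n₀` there are graphs
`Q 1, ..., Q N` with `n` vertices without a clique of more than `√n` vertices such that for each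
family `F` of at most `2 ^ (n ^ (2 - ε))` sets of at least `n ^ (2 - δ)` variables and all `s ≥ 2`
functions `G 0, ..., G (s - 1)`, where `G o` has the value `1` on all graphs with a clique of more
than `√n` vertices: if `r log₂ s ≤ n ^ (2 - ε)`, then at most `N 2 ^ (- n ^ (2 - ε))` of the graphs
`Q i` have a refutation with `r` lemmas for `K` sets of the family `F`. -/
theorem mainS (K : ℕ) (ε : ℝ) (hε : 0 < ε) : ∃ δ : ℝ, 0 < δ ∧ ∃ n₀ : ℕ, ∀ n ≥ n₀,
    ∃ (N : ℕ) (Q : Fin N → EdgeVar n → Bool), 0 < N ∧ (∀ i, ¬ Clq (Q i)) ∧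
      ∀ F : Finset (Finset (EdgeVar n)), (∀ B ∈ F, (n : ℝ) ^ (2 - δ) ≤ (B.card : ℝ)) →
      Real.logb 2 F.card ≤ (n : ℝ) ^ (2 - ε) →
      ∀ (s r : ℕ) (G : Fin s → (EdgeVar n → Bool) → Bool) (o : Fin s), 2 ≤ s →
        (∀ x, Clq x → G o x = true) → r * Real.logb 2 s ≤ (n : ℝ) ^ (2 - ε) →
        ((univ.filter fun i => ∃ X : Fin K → Finset (EdgeVar n), (∀ k, X k ∈ F) ∧
          Sem G o (Q i) X r).card : ℝ) ≤ N * (2 : ℝ) ^ (-((n : ℝ) ^ (2 - ε))) := by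
  rcases Nat.eq_zero_or_pos K with hK | hK
  · -- no set
    subst hK
    obtain ⟨δ, n₀, hδ, hE⟩ := embed 0 ε hε
    refine ⟨δ, hδ, n₀, fun n hn => ?_⟩
    obtain ⟨N, Q, hN, hQ, -⟩ := hE n hn
    refine ⟨N, Q, hN, hQ, fun F _ _ s r G o _ _ _ => ?_⟩
    have h0 : (univ.filter fun i => ∃ X : Fin 0 → Finset (EdgeVar n), (∀ k, X k ∈ F) ∧
        Sem G o (Q i) X r) = ∅ := by
      rw [filter_eq_empty_iff]
      rintro i - ⟨X, -, k, g, -, ⟨j, -⟩⟩
      exact (k j).elim0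
    rw [h0, card_empty, Nat.cast_zero]
    positivity
  obtain ⟨M, rfl⟩ : ∃ M, K = M + 1 := ⟨K - 1, by omega⟩
  have hε' : 0 < ε / 2 := by positivity
  obtain ⟨δ, n₁, hδ, hE⟩ := embed M (ε / 2) hε'
  have hlim : Filter.Tendsto (fun n : ℕ => (n : ℝ) ^ (ε / 2)) Filter.atTop Filter.atTop :=
    (tendsto_rpow_atTop (by positivity)).comp tendsto_natCast_atTop_atTop
  obtain ⟨n₃, h₃⟩ := Filter.eventually_atTop.1 (hlim.eventually_ge_atTop (2 * (M + 1) + 2 : ℝ))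
  refine ⟨δ, hδ, max n₁ (max n₃ 60), fun n hn => ?_⟩
  have hn1 : n₁ ≤ n := le_trans (le_max_left _ _) hn
  have hn3 : n₃ ≤ n := le_trans (le_trans (le_max_left _ _) (le_max_right _ _)) hn
  have hn4 : 60 ≤ n := le_trans (le_trans (le_max_right _ _) (le_max_right _ _)) hn
  have hnR : (60 : ℝ) ≤ n := by exact_mod_cast hn4
  have hn0 : (0 : ℝ) < n := by linarith
  obtain ⟨N, Q, hN, hQ, hE⟩ := hE n hn1
  refine ⟨N, Q, hN, hQ, fun F hF1 hF2 s r G o hs2 hD hrs => ?_⟩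
  rcases Finset.eq_empty_or_nonempty F with hF0 | hF0
  · have h0 : (univ.filter fun i => ∃ X : Fin (M + 1) → Finset (EdgeVar n), (∀ k, X k ∈ F) ∧
        Sem G o (Q i) X r) = ∅ := by
      rw [filter_eq_empty_iff]
      rintro i - ⟨X, hX, -⟩
      have := hX 0
      rw [hF0] at this
      exact absurd this (Finset.notMem_empty _)
    rw [h0, card_empty, Nat.cast_zero]
    positivity
  have hbig : (2 * (M + 1) + 2 : ℝ) * (n : ℝ) ^ (2 - ε) ≤ (n : ℝ) ^ (2 - ε / 2) := by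
    have h8 := h₃ n hn3
    have e1 : (n : ℝ) ^ (2 - ε / 2) = (n : ℝ) ^ (ε / 2) * (n : ℝ) ^ (2 - ε) := by
      rw [← Real.rpow_add hn0]
      congr 1
      ring
    rw [e1]
    exact mul_le_mul_of_nonneg_right h8 (by positivity)
  set a : ℝ := N * (2 : ℝ) ^ (-((n : ℝ) ^ (2 - ε / 2))) with ha
  have hX : ∀ X ∈ Fintype.piFinset (fun _ : Fin (M + 1) => F),
      ((univ.filter fun i => Sem G o (Q i) X r).card : ℝ) ≤ (((M + 1) * s) ^ r : ℕ) * a := by
    intro X hX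
    rw [Fintype.mem_piFinset] at hX
    exact mainS_sets a Q X G o hD (hE X fun t => hF1 _ (hX t))
  have hsub : (univ.filter fun i => ∃ X : Fin (M + 1) → Finset (EdgeVar n), (∀ k, X k ∈ F) ∧
      Sem G o (Q i) X r) ⊆ (Fintype.piFinset (fun _ : Fin (M + 1) => F)).biUnion fun X =>
        univ.filter fun i => Sem G o (Q i) X r := by
    intro i hi
    obtain ⟨X, hX1, hX2⟩ := (mem_filter.1 hi).2
    exact mem_biUnion.2 ⟨X, Fintype.mem_piFinset.2 hX1, mem_filter.2 ⟨mem_univ _, hX2⟩⟩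
  have h9 := (card_le_card hsub).trans (card_biUnion_le
    (s := Fintype.piFinset (fun _ : Fin (M + 1) => F))
    (t := fun X => univ.filter fun i => Sem G o (Q i) X r))
  have h10 : ((univ.filter fun i => ∃ X : Fin (M + 1) → Finset (EdgeVar n), (∀ k, X k ∈ F) ∧
      Sem G o (Q i) X r).card : ℝ) ≤ ∑ X ∈ Fintype.piFinset (fun _ : Fin (M + 1) => F),
        ((univ.filter fun i => Sem G o (Q i) X r).card : ℝ) := by exact_mod_cast h9
  have h11 : ((univ.filter fun i => ∃ X : Fin (M + 1) → Finset (EdgeVar n), (∀ k, X k ∈ F) ∧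
      Sem G o (Q i) X r).card : ℝ) ≤
      ((F.card ^ (M + 1) : ℕ) : ℝ) * ((((M + 1) * s) ^ r : ℕ) * a) := by
    refine h10.trans ((sum_le_sum hX).trans (le_of_eq ?_))
    rw [sum_const, Fintype.card_piFinset, prod_const, card_univ, Fintype.card_fin, nsmul_eq_mul]
  have h12 := mainS_arith (M := M) (s := s) (r := r) (n := n) (f := F.card) (ε := ε)
    (ε' := ε / 2) hs2 (Finset.card_pos.2 hF0) hF2 hrs hbig
  calc _ ≤ ((F.card ^ (M + 1) : ℕ) : ℝ) * ((((M + 1) * s) ^ r : ℕ) * a) := h11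
    _ = N * (((F.card ^ (M + 1) : ℕ) : ℝ) * ((((M + 1) * s) ^ r : ℕ) *
        (2 : ℝ) ^ (-((n : ℝ) ^ (2 - ε / 2))))) := by
        rw [ha]
        ring
    _ ≤ N * (2 : ℝ) ^ (-((n : ℝ) ^ (2 - ε))) := mul_le_mul_of_nonneg_left h12 (Nat.cast_nonneg _)

end Pool.Agent.RK
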