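import Mathlib
import Pool.Agent.Lib.MP_0a1b52_lc_RK.MainS
import Pool.Agent.Lib.MP_0a1b52_lc_RK.Lists
import Pool.Agent.Lib.MP_0a1b52_lc_RP.Col

/-!
# Refutations with few lemmas: the final theorem, lemmas and reading patterns

`final`: the theorem `mainS` on lemmas, together with its corollary on refutation trees which read
the variables in few lists.
-/

set_option autoImplicit false

namespace Pool.Agent.RK

open Finset Pool.Agent.FP

/-- more sets -/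
private theorem patterns_more {V : Type} {s K K' : ℕ} {G : Fin s → (V → Bool) → Bool} {o : Fin s}
    {x : V → Bool} {X : Fin K → Finset V} {X' : Fin K' → Finset V} {r : ℕ} (h : Sem G o x X r)
    (hX : ∀ k, ∃ k', X' k' = X k) : Sem G o x X' r := by
  obtain ⟨k, g, h1, h2⟩ := h
  choose f hf using hX
  refine ⟨fun i => f (k i), g, fun i => ?_, h2⟩
  rw [hf]
  exact h1 i

/-- all edges but one -/
private theorem patterns_full {n : ℕ} (hn : 60 ≤ n) (v : EdgeVar n) (x : EdgeVar n → Bool)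
    (hx : ∀ e, e ≠ v → x e = true) : Clq x := by
  classical
  refine ⟨univ.erase v.1.1, ?_, ?_⟩
  · intro a ha b hb hab
    rw [mem_coe, mem_erase] at ha hb
    rcases lt_or_gt_of_ne hab with h | h
    · refine ⟨⟨(a, b), h⟩, hx _ fun he => ?_, Or.inl rfl⟩
      exact ha.1 (by rw [← he])
    · refine ⟨⟨(b, a), h⟩, hx _ fun he => ?_, Or.inr rfl⟩
      exact hb.1 (by rw [← he])
  · rw [card_erase_of_mem (mem_univ _), card_univ, Fintype.card_fin]
    have h1 : (60 : ℝ) ≤ n := by exact_mod_cast hn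
    have h2 : ((n - 1 : ℕ) : ℝ) = n - 1 := by
      rw [Nat.cast_sub (by omega)]
      simp
    rw [h2, Real.sqrt_lt' (by linarith)]
    nlinarith

private theorem patterns_one {n s : ℕ} (hn : 60 ≤ n) (D : Circuit (EdgeVar n) s)
    (hD : ∀ x, Clq x → D.Accepts x) : s ≠ 1 := by
  intro hs
  have key : ∀ i : Fin s, ¬ i < D.out := by
    intro i h
    have h1 := D.out.2
    have h3 : (i : ℕ) < D.out := h
    omega
  cases hg : D.gate D.out with
  | lit v b =>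
    obtain ⟨val, h1, h2⟩ := hD (fun e => if e = v then !b else true)
      (patterns_full hn v _ fun e he => by simp [he])
    have h3 := h1 D.out
    rw [hg, h2] at h3
    cases b <;> simp at h3
  | and i j => exact key _ (D.and_lt _ i j hg).1
  | or i j => exact key _ (D.or_lt _ i j hg).1

/-- the sets for a system of blocks -/
private theorem patterns_sets {n K K' : ℕ} (hK' : K * K + 3 ≤ K') (δ c : ℝ) (hc : 0 < c)
    (hn : 1 ≤ n)
    (hcol : ∀ β : Finset (Finset (EdgeVar n)),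
      (∀ B ∈ β, (B.card : ℝ) ≤ (n : ℝ) ^ 2 / Real.logb 2 n) →
      ∑ B ∈ β, (B.card : ℝ) ≤ c * (n : ℝ) ^ 2 * Real.logb 2 n →
      ∃ κ : Finset (EdgeVar n) → Fin 3, ∀ t : Fin 3, (n : ℝ) ^ (2 - δ) ≤
        ((univ.filter fun v => ∀ B ∈ β, v ∈ B → κ B = t).card : ℝ))
    (β : Finset (Finset (EdgeVar n)))
    (hβ : ((∀ B ∈ β, (B.card : ℝ) ≤ (n : ℝ) ^ 2 / Real.logb 2 n) ∧
        ∑ B ∈ β, (B.card : ℝ) ≤ c * (n : ℝ) ^ 2 * Real.logb 2 n) ∨
      (β.card ≤ K ∧ ∀ B ∈ β, ∀ B' ∈ β, (n : ℝ) ^ (2 - δ) ≤ ((univ \ (B ∪ B')).card : ℝ))) :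
    ∃ X : Fin K' → Finset (EdgeVar n), (∀ k, (n : ℝ) ^ (2 - δ) ≤ ((X k).card : ℝ)) ∧
      ∀ B ∈ β, ∀ B' ∈ β, ∃ k, (∀ v ∈ B, v ∉ X k) ∧ ∀ v ∈ B', v ∉ X k := by
  classical
  -- small blocks
  have hsmall : ((∀ B ∈ β, (B.card : ℝ) ≤ (n : ℝ) ^ 2 / Real.logb 2 n) ∧
        ∑ B ∈ β, (B.card : ℝ) ≤ c * (n : ℝ) ^ 2 * Real.logb 2 n) →
      ∃ X : Fin K' → Finset (EdgeVar n), (∀ k, (n : ℝ) ^ (2 - δ) ≤ ((X k).card : ℝ)) ∧
      ∀ B ∈ β, ∀ B' ∈ β, ∃ k, (∀ v ∈ B, v ∉ X k) ∧ ∀ v ∈ B', v ∉ X k := by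
    rintro ⟨h1, h2⟩
    obtain ⟨κ, hκ⟩ := hcol β h1 h2
    refine ⟨fun k => univ.filter fun v => ∀ B ∈ β, v ∈ B →
      κ B = ⟨(k : ℕ) % 3, Nat.mod_lt _ (by norm_num)⟩, fun k => ?_, fun B hB B' hB' => ?_⟩
    · convert hκ _
    · obtain ⟨t, ht1, ht2⟩ : ∃ t : Fin 3, κ B ≠ t ∧ κ B' ≠ t := by
        generalize κ B = a
        generalize κ B' = b
        revert a b
        decide
      have ht : (t : ℕ) < 3 := t.2
      refine ⟨⟨t, by omega⟩, fun v hv hv' => ?_, fun v hv hv' => ?_⟩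
      · have h3 := (mem_filter.1 hv').2 B hB hv
        apply ht1
        rw [h3]
        exact Fin.ext (Nat.mod_eq_of_lt ht)
      · have h3 := (mem_filter.1 hv').2 B' hB' hv
        apply ht2
        rw [h3]
        exact Fin.ext (Nat.mod_eq_of_lt ht)
  rcases hβ with hβ | ⟨hβ1, hβ2⟩
  · exact hsmall hβ
  rcases β.eq_empty_or_nonempty with rfl | hne
  · refine hsmall ⟨fun B hB => absurd hB (notMem_empty _), ?_⟩
    rw [sum_empty]
    have h1 : (1 : ℝ) ≤ n := by exact_mod_cast hn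
    have h2 : 0 ≤ Real.logb 2 n := Real.logb_nonneg (by norm_num) h1
    positivity
  -- few blocks
  have : Nonempty (β × β) := by
    obtain ⟨B, hB⟩ := hne
    exact ⟨(⟨B, hB⟩, ⟨B, hB⟩)⟩
  have hcard : Fintype.card (β × β) ≤ Fintype.card (Fin K') := by
    rw [Fintype.card_prod, Fintype.card_fin, Fintype.card_coe]
    calc β.card * β.card ≤ K * K := Nat.mul_le_mul hβ1 hβ1
      _ ≤ K' := by omega
  obtain ⟨e⟩ := Function.Embedding.nonempty_of_card_le hcard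
  refine ⟨fun k => univ \ ((Function.invFun e k).1.1 ∪ (Function.invFun e k).2.1), fun k => ?_,
    fun B hB B' hB' => ⟨e (⟨B, hB⟩, ⟨B', hB'⟩), ?_, ?_⟩⟩
  · exact hβ2 _ (Function.invFun e k).1.2 _ (Function.invFun e k).2.2
  · intro v hv hv'
    dsimp only at hv'
    rw [Function.leftInverse_invFun e.injective] at hv'
    rw [mem_sdiff, mem_union] at hv'
    exact hv'.2 (Or.inl hv)
  · intro v hv hv'
    dsimp only at hv'
    rw [Function.leftInverse_invFun e.injective] at hv'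
    rw [mem_sdiff, mem_union] at hv'
    exact hv'.2 (Or.inr hv)

open Classical in
/-- **Refutations with few lemmas, and reading patterns.** -/
theorem final (ε : ℝ) (hε : 0 < ε) (K : ℕ) : ∃ δ c : ℝ, 0 < δ ∧ 0 < c ∧ ∃ n₀ : ℕ, ∀ n ≥ n₀,
    ∃ (N : ℕ) (Q : Fin N → EdgeVar n → Bool), 0 < N ∧ (∀ i, ¬ Clq (Q i)) ∧
      ∀ s r : ℕ, r * Real.logb 2 s ≤ (n : ℝ) ^ (2 - ε) →
      (∀ (G : Fin s → (EdgeVar n → Bool) → Bool) (o : Fin s), 2 ≤ s →
        (∀ x, Clq x → G o x = true) →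
        ∀ F : Finset (Finset (EdgeVar n)), (∀ X ∈ F, (n : ℝ) ^ (2 - δ) ≤ (X.card : ℝ)) →
        Real.logb 2 F.card ≤ (n : ℝ) ^ (2 - ε) →
        ((univ.filter fun i => ∃ X : Fin K → Finset (EdgeVar n), (∀ k, X k ∈ F) ∧
          Sem G o (Q i) X r).card : ℝ) ≤ N * (2 : ℝ) ^ (-((n : ℝ) ^ (2 - ε)))) ∧
      ∀ D : Circuit (EdgeVar n) s, (∀ x, Clq x → D.Accepts x) →
        ∀ 𝓑 : Finset (Finset (Finset (EdgeVar n))),
        (∀ β ∈ 𝓑, ((∀ B ∈ β, (B.card : ℝ) ≤ (n : ℝ) ^ 2 / Real.logb 2 n) ∧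
            ∑ B ∈ β, (B.card : ℝ) ≤ c * (n : ℝ) ^ 2 * Real.logb 2 n) ∨
          (β.card ≤ K ∧ ∀ B ∈ β, ∀ B' ∈ β,
            (n : ℝ) ^ (2 - δ) ≤ ((univ \ (B ∪ B')).card : ℝ))) →
        Real.logb 2 𝓑.card ≤ (n : ℝ) ^ (2 - ε) →
        ((univ.filter fun i => ∃ β ∈ 𝓑, ∃ P : List (List (EdgeVar n)), P.length = r ∧
          D.Refutes (Q i) D.out P.flatten ∧ ∀ l ∈ P, ∃ B ∈ β, ∀ v ∈ l, v ∈ B).card : ℝ) ≤
          N * (2 : ℝ) ^ (-((n : ℝ) ^ (2 - ε))) := by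
  set ε' := min (ε / 2) (1 / 2) with hε'
  have hε0 : 0 < ε' := lt_min (by positivity) (by norm_num)
  have hε1 : ε' ≤ ε / 2 := min_le_left _ _
  have hε2 : ε' ≤ 1 / 2 := min_le_right _ _
  obtain ⟨K', hK'⟩ : ∃ K', K' = K * K + 3 := ⟨_, rfl⟩
  obtain ⟨δ, hδ, n₁, hmain⟩ := mainS K' ε' hε0
  obtain ⟨c, hc, n₂, hcol⟩ := Pool.Agent.RP.colour δ hδ
  have hlim : Filter.Tendsto (fun n : ℕ => (n : ℝ) ^ (ε / 2)) Filter.atTop Filter.atTop :=
    (tendsto_rpow_atTop (by positivity)).comp tendsto_natCast_atTop_atTop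
  obtain ⟨n₃, h₃⟩ := Filter.eventually_atTop.1 (hlim.eventually_ge_atTop 2)
  refine ⟨δ, c, hδ, hc, max (max n₁ n₂) (max n₃ (2 * K' + 60)), fun n hn => ?_⟩
  have hn1 : n₁ ≤ n := le_trans (le_trans (le_max_left _ _) (le_max_left _ _)) hn
  have hn2 : n₂ ≤ n := le_trans (le_trans (le_max_right _ _) (le_max_left _ _)) hn
  have hn3 : n₃ ≤ n := le_trans (le_trans (le_max_left _ _) (le_max_right _ _)) hn
  have hn4 : 2 * K' + 60 ≤ n := le_trans (le_trans (le_max_right _ _) (le_max_right _ _)) hn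
  have hnK : 2 * (K' : ℝ) + 60 ≤ n := by exact_mod_cast hn4
  have hK0 : (0 : ℝ) ≤ K' := Nat.cast_nonneg _
  have hnR : (1 : ℝ) ≤ n := by linarith
  have hn0 : (0 : ℝ) < n := by linarith
  have hbig : 2 * (n : ℝ) ^ (2 - ε) ≤ (n : ℝ) ^ (2 - ε') := by
    have h8 := h₃ n hn3
    have e1 : (n : ℝ) ^ (2 - ε / 2) = (n : ℝ) ^ (ε / 2) * (n : ℝ) ^ (2 - ε) := by
      rw [← Real.rpow_add hn0]
      congr 1
      ring
    calc 2 * (n : ℝ) ^ (2 - ε) ≤ (n : ℝ) ^ (ε / 2) * (n : ℝ) ^ (2 - ε) :=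
          mul_le_mul_of_nonneg_right h8 (by positivity)
      _ = (n : ℝ) ^ (2 - ε / 2) := e1.symm
      _ ≤ (n : ℝ) ^ (2 - ε') :=
          Real.rpow_le_rpow_of_exponent_le (by linarith) (by linarith)
  have hone : (n : ℝ) ≤ (n : ℝ) ^ (2 - ε') := by
    have h1 : (n : ℝ) ^ (1 : ℝ) ≤ (n : ℝ) ^ (2 - ε') :=
      Real.rpow_le_rpow_of_exponent_le hnR (by linarith)
    rwa [Real.rpow_one] at h1
  have hpos : (0 : ℝ) ≤ (n : ℝ) ^ (2 - ε) := by positivity
  have hpow : (2 : ℝ) ^ (-((n : ℝ) ^ (2 - ε'))) ≤ (2 : ℝ) ^ (-((n : ℝ) ^ (2 - ε))) :=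
    Real.rpow_le_rpow_of_exponent_le (by norm_num) (by linarith)
  obtain ⟨N, Q, hN, hQ, hmain⟩ := hmain n hn1
  have hpow' : N * (2 : ℝ) ^ (-((n : ℝ) ^ (2 - ε'))) ≤
      N * (2 : ℝ) ^ (-((n : ℝ) ^ (2 - ε))) :=
    mul_le_mul_of_nonneg_left hpow (Nat.cast_nonneg _)
  refine ⟨N, Q, hN, hQ, fun s r hrs => ⟨fun G o hs hG F hF hF2 => ?_,
    fun D hD 𝓑 h𝓑 h𝓑2 => ?_⟩⟩
  · -- lemmas
    refine le_trans ?_ ((hmain F hF (by linarith) s r G o hs hG (by linarith)).trans hpow')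
    have hsub : (univ.filter fun i => ∃ X : Fin K → Finset (EdgeVar n), (∀ k, X k ∈ F) ∧
          Sem G o (Q i) X r) ⊆ univ.filter fun i => ∃ X : Fin K' → Finset (EdgeVar n),
          (∀ k, X k ∈ F) ∧ Sem G o (Q i) X r := by
      intro i hi
      obtain ⟨X, hX, hL⟩ := (mem_filter.1 hi).2
      refine mem_filter.2 ⟨mem_univ _, ?_⟩
      rcases Nat.eq_zero_or_pos K with hK | hK
      · exfalso
        subst hK
        obtain ⟨k, -, -, ⟨i, -⟩⟩ := hL
        exact (k i).elim0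
      · have hKK : ∀ k : Fin K, (k : ℕ) < K' := by
          intro k
          have h1 := k.2
          have h2 : K ≤ K * K := Nat.le_mul_self K
          omega
        refine ⟨fun k => if h : (k : ℕ) < K then X ⟨k, h⟩ else X ⟨0, hK⟩, fun k => ?_,
          patterns_more hL fun k => ⟨⟨(k : ℕ), hKK k⟩, ?_⟩⟩
        · dsimp only
          split_ifs <;> exact hX _
        · simp only [k.2, dif_pos, Fin.eta]
    exact_mod_cast card_le_card hsub
  · -- lists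
    have hex : ∀ β : Finset (Finset (EdgeVar n)), ∃ X : Fin K' → Finset (EdgeVar n), β ∈ 𝓑 →
        (∀ k, (n : ℝ) ^ (2 - δ) ≤ ((X k).card : ℝ)) ∧
        ∀ B ∈ β, ∀ B' ∈ β, ∃ k, (∀ v ∈ B, v ∉ X k) ∧ ∀ v ∈ B', v ∉ X k := by
      intro β
      by_cases hβ : β ∈ 𝓑
      · obtain ⟨X, hX⟩ := patterns_sets (K := K) (K' := K') hK'.ge δ c hc (by omega)
          (hcol n hn2) β (h𝓑 β hβ)
        exact ⟨X, fun _ => hX⟩
      · exact ⟨fun _ => ∅, fun h => absurd h hβ⟩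
    choose X hX using hex
    let F : Finset (Finset (EdgeVar n)) := 𝓑.biUnion fun β => univ.image (X β)
    have hF : ∀ B ∈ F, (n : ℝ) ^ (2 - δ) ≤ (B.card : ℝ) := by
      intro B hB
      obtain ⟨β, hβ, hB⟩ := mem_biUnion.1 hB
      obtain ⟨k, -, rfl⟩ := mem_image.1 hB
      exact (hX β hβ).1 k
    have hF2 : Real.logb 2 (F.card : ℝ) ≤ (n : ℝ) ^ (2 - ε') := by
      rcases Nat.eq_zero_or_pos F.card with h0 | h0
      · rw [h0, Nat.cast_zero, Real.logb_zero]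
        positivity
      have h1 : F.card ≤ 𝓑.card * K' := by
        refine card_biUnion_le_card_mul _ _ _ fun β _ => ?_
        have h2 := card_image_le (s := (univ : Finset (Fin K'))) (f := X β)
        rwa [card_univ, Fintype.card_fin] at h2
      have h2 : 0 < 𝓑.card := by
        rcases Nat.eq_zero_or_pos 𝓑.card with h | h
        · rw [h, zero_mul] at h1
          omega
        · exact h
      have h3 : (0 : ℝ) < K' := by
        rw [hK']
        push_cast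
        positivity
      have h4 : (F.card : ℝ) ≤ 𝓑.card * K' := by exact_mod_cast h1
      have h5 : (0 : ℝ) < F.card := by exact_mod_cast h0
      have h6 : (0 : ℝ) < 𝓑.card := by exact_mod_cast h2
      have h7 : Real.logb 2 (F.card : ℝ) ≤ Real.logb 2 (𝓑.card * K') :=
        Real.logb_le_logb_of_le (by norm_num) h5 h4
      rw [Real.logb_mul h6.ne' h3.ne'] at h7
      have h8 : Real.logb 2 (K' : ℝ) ≤ K' := by
        rw [Real.logb_le_iff_le_rpow (by norm_num) h3, Real.rpow_natCast]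
        exact_mod_cast (Nat.lt_two_pow_self (n := K')).le
      linarith
    have hs : 2 ≤ s := by
      have h1 := D.out.2
      have h2 := patterns_one (by omega) D hD
      omega
    refine le_trans ?_ ((hmain F hF hF2 s (2 * r) (gateFun D) D.out hs
      (fun x hx => gateFun_out (hD x hx)) (by push_cast; linarith)).trans hpow')
    have hsub : (univ.filter fun i => ∃ β ∈ 𝓑, ∃ P : List (List (EdgeVar n)), P.length = r ∧
        D.Refutes (Q i) D.out P.flatten ∧ ∀ l ∈ P, ∃ B ∈ β, ∀ v ∈ l, v ∈ B) ⊆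
        univ.filter fun i => ∃ X : Fin K' → Finset (EdgeVar n),
          (∀ k, X k ∈ F) ∧ Sem (gateFun D) D.out (Q i) X (2 * r) := by
      intro i hi
      obtain ⟨β, hβ, P, hP1, hP2, hP3⟩ := (mem_filter.1 hi).2
      refine mem_filter.2 ⟨mem_univ _, X β, fun k => ?_, ?_⟩
      · exact mem_biUnion.2 ⟨β, hβ, mem_image.2 ⟨k, mem_univ _, rfl⟩⟩
      · rw [← hP1]
        refine (lists D (Q i) (X β) P hP2 fun l hl l' hl' => ?_).sem
        obtain ⟨B, hB, hlB⟩ := hP3 l hl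
        obtain ⟨B', hB', hlB'⟩ := hP3 l' hl'
        obtain ⟨k, h1, h2⟩ := (hX β hβ).2 B hB B' hB'
        exact ⟨k, fun v hv => h1 v (hlB v hv), fun v hv => h2 v (hlB' v hv)⟩
    exact_mod_cast card_le_card hsub

end Pool.Agent.RK
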